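import Mathlib

set_option autoImplicit false

/-!
The constant `c = 4.311...`, the root `> 2` of `c log (2 e / c) = 1`.
-/

namespace Pool.Agent.Helper46_MNO

open Real Filter Topology

/-- `h x = x log (2 e / x)` -/
noncomputable def hh (x : ℝ) : ℝ := x * Real.log (2 * Real.exp 1 / x)

lemma hh_eq {x : ℝ} (hx : 0 < x) : hh x = x * (Real.log 2 + 1 - Real.log x) := by
  unfold hh
  rw [Real.log_div (by positivity) hx.ne', Real.log_mul (by norm_num) (Real.exp_pos 1).ne',
    Real.log_exp]

lemma hh_strictAnti : StrictAntiOn (fun x : ℝ => x * (Real.log 2 + 1 - Real.log x)) (Set.Ici 2) := by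
  apply strictAntiOn_of_deriv_neg (convex_Ici 2)
  · apply ContinuousOn.mul continuousOn_id
    apply ContinuousOn.sub continuousOn_const
    exact Real.continuousOn_log.mono (fun x hx => by
      simp only [Set.mem_compl_iff, Set.mem_singleton_iff]
      have : (2:ℝ) ≤ x := hx
      linarith)
  · intro x hx
    rw [interior_Ici] at hx
    have hx2 : (2:ℝ) < x := hx
    have h1 : HasDerivAt (fun x : ℝ => x * (Real.log 2 + 1 - Real.log x))
        (1 * (Real.log 2 + 1 - Real.log x) + x * (0 - x⁻¹)) x := by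
      apply HasDerivAt.mul (hasDerivAt_id x)
      exact (hasDerivAt_const x _).sub (Real.hasDerivAt_log (by linarith))
    rw [h1.deriv]
    have h2 : x * (0 - x⁻¹) = -1 := by
      have : x ≠ 0 := by linarith
      field_simp
      ring
    rw [h2]
    have h3 : Real.log 2 < Real.log x := Real.log_lt_log (by norm_num) hx2
    linarith

lemma hh_lt {x y : ℝ} (hx : 2 ≤ x) (hxy : x < y) : hh y < hh x := by
  rw [hh_eq (by linarith), hh_eq (by linarith)]
  exact hh_strictAnti (show (2:ℝ) ≤ x from hx) (show (2:ℝ) ≤ y by linarith) hxy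

lemma hh_431 : 1 < hh 4.31 := by
  rw [hh_eq (by norm_num)]
  have h1 : Real.log 4.31 = 2 * Real.log 2 + Real.log 1.0775 := by
    rw [← Real.log_rpow (by norm_num), ← Real.log_mul (by norm_num) (by norm_num)]
    norm_num
  have h2 : Real.log 1.0775 < 0.0748 := by
    rw [Real.log_lt_iff_lt_exp (by norm_num)]
    have := Real.quadratic_le_exp_of_nonneg (show (0:ℝ) ≤ 0.0748 by norm_num)
    norm_num at this ⊢
    linarith
  have h3 := Real.log_two_lt_d9
  rw [h1]
  nlinarith

lemma hh_432 : hh 4.32 < 1 := by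
  rw [hh_eq (by norm_num)]
  have h1 : Real.log 4.32 = 2 * Real.log 2 + Real.log 1.08 := by
    rw [← Real.log_rpow (by norm_num), ← Real.log_mul (by norm_num) (by norm_num)]
    norm_num
  have h2 : 0.0769 < Real.log 1.08 := by
    have h4 := Real.le_log_one_add_of_nonneg (show (0:ℝ) ≤ 0.08 by norm_num)
    norm_num at h4 ⊢
    linarith
  have h3 := Real.log_two_gt_d9
  rw [h1]
  nlinarith

lemma continuousOn_hh : ContinuousOn hh (Set.Icc 4.31 4.32) := by
  unfold hh
  apply ContinuousOn.mul continuousOn_id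
  apply ContinuousOn.log
  · apply ContinuousOn.div continuousOn_const continuousOn_id
    intro x hx
    have : (4.31:ℝ) ≤ x := hx.1
    simp only [id_eq, ne_eq]
    linarith
  · intro x hx
    have h1 : (4.31:ℝ) ≤ x := hx.1
    have h2 : 0 < x := by linarith
    positivity

theorem exists_c : ∃ c : ℝ, 4.31 < c ∧ c < 4.32 ∧ c * Real.log (2 * Real.exp 1 / c) = 1 := by
  have h1 : (1:ℝ) ∈ hh '' Set.Icc 4.31 4.32 :=
    intermediate_value_Icc' (by norm_num) continuousOn_hh ⟨hh_432.le, hh_431.le⟩
  obtain ⟨c, hc, hc1⟩ := h1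
  refine ⟨c, lt_of_le_of_ne hc.1 ?_, lt_of_le_of_ne hc.2 ?_, hc1⟩
  · rintro rfl
    have := hh_431
    linarith
  · rintro rfl
    have := hh_432
    linarith

theorem unique_c {c c' : ℝ} (hc : 2 < c) (hc' : 2 < c')
    (h : c * Real.log (2 * Real.exp 1 / c) = 1) (h' : c' * Real.log (2 * Real.exp 1 / c') = 1) :
    c = c' := by
  have e : hh c = hh c' := h.trans h'.symm
  rcases lt_trichotomy c c' with h1 | h1 | h1
  · have := hh_lt hc.le h1; linarith
  · exact h1
  · have := hh_lt hc'.le h1; linarith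

end Pool.Agent.Helper46_MNO
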