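import Pool.Agent.Helper46_MNO.Tau

set_option autoImplicit false

/-!
The harmonic sum `∑ m ≤ X, τ(m)^κ / m ≤ C (log X)^(2^κ)` and the mean of `τ^κ`.
-/

namespace Pool.Agent.Helper46_MNO

open Finset Real

lemma summable_shift (κ : ℝ) :
    Summable (fun n : ℕ => ((n : ℝ) + 3) ^ κ * (1 / 2 : ℝ) ^ n) := by
  obtain ⟨K, hK⟩ := exists_nat_ge κ
  have h1 : Summable (fun n : ℕ => (n : ℝ) ^ K * (1 / 2 : ℝ) ^ n) :=
    summable_pow_mul_geometric_of_norm_lt_one K (by norm_num)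
  have h2 : Summable (fun n : ℕ => ((n + 3 : ℕ) : ℝ) ^ K * (1 / 2 : ℝ) ^ (n + 3)) :=
    h1.comp_injective (fun a b h => by simpa using h)
  have h3 := h2.mul_left (8 : ℝ)
  apply Summable.of_nonneg_of_le (fun n => by positivity) _ h3
  intro n
  have h4 : ((n : ℝ) + 3) ^ κ ≤ ((n : ℝ) + 3) ^ K := by
    rw [← Real.rpow_natCast]
    exact Real.rpow_le_rpow_of_exponent_le (by have : (0:ℝ) ≤ n := Nat.cast_nonneg _; linarith) hK
  calc ((n : ℝ) + 3) ^ κ * (1 / 2 : ℝ) ^ n ≤ ((n : ℝ) + 3) ^ K * (1 / 2 : ℝ) ^ n := by gcongr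
    _ = _ := by push_cast; rw [pow_add]; ring

/-- Constant for the tail of the local factor. -/
noncomputable def cK (κ : ℝ) : ℝ := ∑' n : ℕ, ((n : ℝ) + 3) ^ κ * (1 / 2 : ℝ) ^ n

lemma cK_nonneg (κ : ℝ) : 0 ≤ cK κ := tsum_nonneg fun n => by positivity

lemma local_factor {κ : ℝ} (hκ : 0 < κ) {p : ℕ} (hp : p.Prime) :
    Summable (fun n : ℕ => tk κ (p ^ n) / ((p ^ n : ℕ) : ℝ)) ∧
    ∑' n : ℕ, tk κ (p ^ n) / ((p ^ n : ℕ) : ℝ)
      ≤ Real.exp (2 ^ κ * (1 / p) + cK κ * (1 / (p : ℝ) ^ 2)) := by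
  have hp2 : (2 : ℝ) ≤ p := by exact_mod_cast hp.two_le
  have hp0 : (0 : ℝ) < p := by linarith
  have e1 : ∀ n : ℕ, tk κ (p ^ (n + 2)) / ((p ^ (n + 2) : ℕ) : ℝ)
      ≤ ((n : ℝ) + 3) ^ κ * (1 / 2 : ℝ) ^ n * (1 / (p : ℝ) ^ 2) := by
    intro n
    rw [tk_prime_pow κ hp]
    push_cast
    have h1 : ((n : ℝ) + 2 + 1) = (n : ℝ) + 3 := by ring
    rw [h1]
    have h2 : (1 : ℝ) / (p : ℝ) ^ (n + 2) ≤ (1 / 2 : ℝ) ^ n * (1 / (p : ℝ) ^ 2) := by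
      rw [pow_add, one_div_pow, ← one_div_mul_one_div]
      gcongr
    calc ((n : ℝ) + 3) ^ κ / (p : ℝ) ^ (n + 2) = ((n : ℝ) + 3) ^ κ * (1 / (p : ℝ) ^ (n + 2)) := by
          ring
      _ ≤ ((n : ℝ) + 3) ^ κ * ((1 / 2 : ℝ) ^ n * (1 / (p : ℝ) ^ 2)) := by gcongr
      _ = _ := by ring
  have hs2 : Summable (fun n : ℕ => ((n : ℝ) + 3) ^ κ * (1 / 2 : ℝ) ^ n * (1 / (p : ℝ) ^ 2)) :=
    (summable_shift κ).mul_right _
  have hs1 : Summable (fun n : ℕ => tk κ (p ^ (n + 2)) / ((p ^ (n + 2) : ℕ) : ℝ)) :=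
    Summable.of_nonneg_of_le (fun n => div_nonneg (tk_nonneg _ _) (Nat.cast_nonneg _)) e1 hs2
  have hs : Summable (fun n : ℕ => tk κ (p ^ n) / ((p ^ n : ℕ) : ℝ)) :=
    (summable_nat_add_iff 2).mp hs1
  refine ⟨hs, ?_⟩
  rw [← hs.sum_add_tsum_nat_add 2]
  have h3 : ∑' n : ℕ, tk κ (p ^ (n + 2)) / ((p ^ (n + 2) : ℕ) : ℝ) ≤ cK κ * (1 / (p : ℝ) ^ 2) := by
    calc _ ≤ ∑' n : ℕ, ((n : ℝ) + 3) ^ κ * (1 / 2 : ℝ) ^ n * (1 / (p : ℝ) ^ 2) :=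
          hs1.tsum_le_tsum e1 hs2
      _ = _ := by rw [tsum_mul_right]; rfl
  have h4 : ∑ n ∈ range 2, tk κ (p ^ n) / ((p ^ n : ℕ) : ℝ) = 1 + 2 ^ κ * (1 / p) := by
    rw [sum_range_succ, sum_range_one, pow_zero, pow_one, tk_one, tk_prime κ hp]
    push_cast; ring
  rw [h4]
  have := Real.add_one_le_exp (2 ^ κ * (1 / (p : ℝ)) + cK κ * (1 / (p : ℝ) ^ 2))
  linarith

lemma sum_inv_sq_le (s : Finset ℕ) : ∑ p ∈ s, 1 / (p : ℝ) ^ 2 ≤ 2 := by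
  have h1 : Summable (fun n : ℕ => 1 / (n : ℝ) ^ 2) := by
    exact Real.summable_one_div_nat_pow.mpr (by norm_num)
  calc ∑ p ∈ s, 1 / (p : ℝ) ^ 2 ≤ ∑' n : ℕ, 1 / (n : ℝ) ^ 2 :=
        h1.sum_le_tsum _ (fun i _ => by positivity)
    _ = π ^ 2 / 6 := hasSum_zeta_two.tsum_eq
    _ ≤ 2 := by nlinarith [Real.pi_lt_d2, Real.pi_pos]

lemma harm_le {κ : ℝ} (hκ : 0 < κ) : ∃ C : ℝ, 0 ≤ C ∧ ∀ X : ℕ, 2 ≤ X →
    ∑ m ∈ Ioc 0 X, tk κ m / m ≤ C * (Real.log X) ^ ((2 : ℝ) ^ κ) := by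
  obtain ⟨A, hA⟩ := Pool.Agent.Common_Mertens.sum_inv_le
  refine ⟨Real.exp (2 ^ κ * A + 2 * cK κ) * 2 ^ ((2 : ℝ) ^ κ), by positivity, fun X hX => ?_⟩
  have hX2 : (2 : ℝ) ≤ X := by exact_mod_cast hX
  set f : ℕ → ℝ := fun m => tk κ m / m with hf
  have hf1 : f 1 = 1 := by simp [hf, tk_one]
  have hmul : ∀ {m n : ℕ}, Nat.Coprime m n → f (m * n) = f m * f n := by
    intro m n h
    simp only [hf]
    rw [tk_coprime κ h]
    push_cast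
    rw [mul_div_mul_comm]
  have hfnn : ∀ m, 0 ≤ f m := fun m => div_nonneg (tk_nonneg _ _) (Nat.cast_nonneg _)
  have hsum : ∀ {p : ℕ}, p.Prime → Summable (fun n : ℕ => ‖f (p ^ n)‖) := by
    intro p hp
    have := (local_factor hκ hp).1
    have e : (fun n : ℕ => ‖f (p ^ n)‖) = fun n : ℕ => tk κ (p ^ n) / ((p ^ n : ℕ) : ℝ) := by
      funext n
      rw [Real.norm_of_nonneg (hfnn _)]
    rw [e]; exact this
  have hE := EulerProduct.summable_and_hasSum_smoothNumbers_prod_primesBelow_tsum hf1 hmul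
    hsum (X + 1)
  have h1 : ∑ m ∈ Ioc 0 X, f m ≤ ∏ p ∈ (X + 1).primesBelow, ∑' n : ℕ, f (p ^ n) := by
    rw [← hE.2.tsum_eq]
    have h2 : Summable (fun m : (X + 1).smoothNumbers => f m) := hE.2.summable
    have hmem : ∀ m ∈ Ioc 0 X, m ∈ (X + 1).smoothNumbers := by
      intro m hm
      rw [mem_Ioc] at hm
      rw [Nat.mem_smoothNumbers_iff_forall_le]
      exact ⟨by omega, fun p hp _ _ => by omega⟩
    have h3 : ∑ m ∈ Ioc 0 X, f m = ∑ m ∈ (Ioc 0 X).attach,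
        f ((⟨m.1, hmem m.1 m.2⟩ : (X + 1).smoothNumbers) : ℕ) := by
      rw [← sum_attach]
    rw [h3]
    have h4 : ∑ m ∈ (Ioc 0 X).attach, f ((⟨m.1, hmem m.1 m.2⟩ : (X + 1).smoothNumbers) : ℕ)
        = ∑ x ∈ (Ioc 0 X).attach.image
          (fun m => (⟨m.1, hmem m.1 m.2⟩ : (X + 1).smoothNumbers)), f (x : ℕ) := by
      rw [sum_image]
      intro a _ b _ hab
      have := congrArg (fun x : (X + 1).smoothNumbers => (x : ℕ)) hab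
      exact Subtype.ext this
    rw [h4]
    exact h2.sum_le_tsum _ (fun i _ => hfnn _)
  have h5 : ∏ p ∈ (X + 1).primesBelow, ∑' n : ℕ, f (p ^ n)
      ≤ ∏ p ∈ (X + 1).primesBelow,
        Real.exp (2 ^ κ * (1 / p) + cK κ * (1 / (p : ℝ) ^ 2)) := by
    apply prod_le_prod
    · intro p hp; exact tsum_nonneg fun n => hfnn _
    · intro p hp
      rw [Nat.mem_primesBelow] at hp
      exact (local_factor hκ hp.2).2
  have h6 : ∏ p ∈ (X + 1).primesBelow, Real.exp (2 ^ κ * (1 / p) + cK κ * (1 / (p : ℝ) ^ 2))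
      = Real.exp (2 ^ κ * ∑ p ∈ (X + 1).primesBelow, (1 : ℝ) / p
        + cK κ * ∑ p ∈ (X + 1).primesBelow, 1 / (p : ℝ) ^ 2) := by
    rw [← Real.exp_sum, sum_add_distrib, mul_sum, mul_sum]
  have h7 : ∑ p ∈ (X + 1).primesBelow, (1 : ℝ) / p ≤ Real.log (Real.log ((X : ℝ) + 1)) + A :=
    hA X (by omega)
  have h8 : ∑ p ∈ (X + 1).primesBelow, 1 / (p : ℝ) ^ 2 ≤ 2 := sum_inv_sq_le _
  have hlogX : 0 < Real.log X := Real.log_pos (by linarith)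
  have hlog1 : Real.log ((X : ℝ) + 1) ≤ 2 * Real.log X := by
    have : (X : ℝ) + 1 ≤ X ^ 2 := by nlinarith
    calc Real.log ((X : ℝ) + 1) ≤ Real.log ((X : ℝ) ^ 2) := Real.log_le_log (by linarith) this
      _ = 2 * Real.log X := by rw [Real.log_pow]; norm_num
  have hlog2 : 0 < Real.log ((X : ℝ) + 1) := Real.log_pos (by linarith)
  have h9 : Real.log (Real.log ((X : ℝ) + 1)) ≤ Real.log (2 * Real.log X) :=
    Real.log_le_log hlog2 hlog1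
  have h10 : (0 : ℝ) ≤ 2 ^ κ := by positivity
  calc ∑ m ∈ Ioc 0 X, tk κ m / m ≤ _ := h1
    _ ≤ _ := h5
    _ = _ := h6
    _ ≤ Real.exp (2 ^ κ * (Real.log (2 * Real.log X) + A) + cK κ * 2) := by
        apply Real.exp_le_exp.mpr
        have := cK_nonneg κ
        gcongr
        linarith
    _ = Real.exp (2 ^ κ * A + 2 * cK κ) * (2 * Real.log X) ^ ((2 : ℝ) ^ κ) := by
        rw [Real.rpow_def_of_pos (x := 2 * Real.log X) (by positivity), ← Real.exp_add]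
        congr 1; ring
    _ = _ := by
        rw [Real.mul_rpow (by norm_num) hlogX.le]; ring

/-- Mean of `τ^κ`. -/
theorem sum_tk_le {κ : ℝ} (hκ : 0 < κ) : ∃ C : ℝ, 0 ≤ C ∧ ∀ X : ℕ, 2 ≤ X →
    ∑ m ∈ Ioc 0 X, tk κ m ≤ C * X * (Real.log X) ^ ((2 : ℝ) ^ κ - 1) := by
  obtain ⟨A, hA0, hA⟩ := sum_tk_mul_log_le hκ
  obtain ⟨B, hB0, hB⟩ := harm_le hκ
  refine ⟨A * B, by positivity, fun X hX => ?_⟩
  have hX2 : (2 : ℝ) ≤ X := by exact_mod_cast hX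
  have hlogX : 0 < Real.log X := Real.log_pos (by linarith)
  have h1 := hA X
  have h2 := hB X hX
  have h3 : (∑ m ∈ Ioc 0 X, tk κ m) * Real.log X
      ≤ A * X * (B * (Real.log X) ^ ((2 : ℝ) ^ κ)) :=
    h1.trans (by gcongr)
  rw [Real.rpow_sub_one hlogX.ne']
  rw [← le_div_iff₀ hlogX] at h3
  calc _ ≤ _ := h3
    _ = _ := by ring

end Pool.Agent.Helper46_MNO
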