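import Pool.Agent.Helper46_MNO.Param
import Pool.Agent.Helper45_DivisorSieve.Link

set_option autoImplicit false

/-!
The lower half of the normal order.
-/

namespace Pool.Agent.Helper46_MNO

open Finset Real Filter Topology

lemma ev_pow {a b c : ℝ} (hab : a < b) (hc : 0 < c) : ∀ᶠ x : ℝ in atTop, x ^ a ≤ c * x ^ b := by
  have h1 := (tendsto_rpow_atTop (sub_pos.mpr hab)).eventually_ge_atTop (1 / c)
  filter_upwards [h1, eventually_gt_atTop 0] with x h2 h3
  have h4 : x ^ b = x ^ a * x ^ (b - a) := by rw [← Real.rpow_add h3]; ring_nf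
  rw [h4]
  rw [div_le_iff₀ hc] at h2
  have h5 : 0 ≤ x ^ a := Real.rpow_nonneg h3.le _
  nlinarith

lemma ev_const_pow {b c : ℝ} (hb : 0 < b) (K : ℝ) (hc : 0 < c) :
    ∀ᶠ x : ℝ in atTop, K ≤ c * x ^ b := by
  have h1 := (tendsto_rpow_atTop hb).eventually_ge_atTop (K / c)
  filter_upwards [h1] with x h2
  rw [div_le_iff₀ hc] at h2
  linarith

lemma ev_log_pow {b c : ℝ} (hb : 0 < b) (hc : 0 < c) :
    ∀ᶠ x : ℝ in atTop, Real.log x ≤ c * x ^ b := by
  have h1 := (isLittleO_log_rpow_atTop hb).def hc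
  filter_upwards [h1, eventually_gt_atTop 0] with x h2 h3
  rw [norm_eq_abs, norm_eq_abs, abs_of_nonneg (Real.rpow_nonneg h3.le b)] at h2
  exact (le_abs_self _).trans h2

lemma EE_small {θ δ t : ℝ} (hδ : 0 < δ) (hδ1 : δ < 1) (ht : 1 ≤ t) :
    ∀ᶠ N : ℕ in atTop, EE (Pn θ δ N) (Rn δ N) t ≤ Real.exp (Real.log N / 8) := by
  set K : ℝ := 1 + Real.log t with hK
  have hK0 : 0 ≤ K := by have := Real.log_nonneg ht; linarith
  filter_upwards [tendsto_logN.eventually_ge_atTop 1,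
    tendsto_logN.eventually (ev_pow (a := 1 - δ / 2) (b := 1) (c := 1 / 32) (by linarith)
      (by norm_num)),
    tendsto_logN.eventually (ev_pow (a := δ / 2) (b := 1) (c := 1 / (32 * (K + 1)))
      (by linarith) (by positivity)),
    tendsto_logN.eventually_ge_atTop 32] with N h1 h2 h3 h4
  set x := Real.log (N : ℝ) with hx
  rw [Real.rpow_one] at h2 h3
  have hx0 : 0 < x := by linarith
  have hcard : ((Pn θ δ N).card : ℝ) ≤ Real.exp (x ^ (1 - δ)) := by
    have h5 : (Pn θ δ N).card ≤ ⌊Real.exp (x ^ (1 - δ))⌋₊ := by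
      refine (card_filter_le _ _).trans ?_
      rw [Nat.card_Icc, ← hx]
      unfold Jn
      omega
    have h6 : ((⌊Real.exp (x ^ (1 - δ))⌋₊ : ℕ) : ℝ) ≤ Real.exp (x ^ (1 - δ)) :=
      Nat.floor_le (Real.exp_pos _).le
    have h7 : ((Pn θ δ N).card : ℝ) ≤ ((⌊Real.exp (x ^ (1 - δ))⌋₊ : ℕ) : ℝ) := by
      exact_mod_cast h5
    linarith
  have hb : (((Pn θ δ N).card : ℝ) + 1) * t ≤ Real.exp (x ^ (1 - δ) + K) := by
    have h8 : 1 ≤ Real.exp (x ^ (1 - δ)) := by
      exact Real.one_le_exp (Real.rpow_nonneg hx0.le _)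
    rw [hK, Real.exp_add, Real.exp_add, Real.exp_log (by linarith)]
    have h9 : (2:ℝ) ≤ Real.exp 1 := by have := Real.add_one_le_exp (1:ℝ); linarith
    have h10 : ((Pn θ δ N).card : ℝ) + 1 ≤ Real.exp (x ^ (1 - δ)) * Real.exp 1 := by nlinarith
    calc (((Pn θ δ N).card : ℝ) + 1) * t ≤ Real.exp (x ^ (1 - δ)) * Real.exp 1 * t := by
          apply mul_le_mul_of_nonneg_right h10 (by linarith)
      _ = _ := by ring
  have hR : ((Rn δ N : ℕ) : ℝ) ≤ x ^ (δ / 2) := Nat.floor_le (Real.rpow_nonneg hx0.le _)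
  have hy0 : 0 ≤ x ^ (1 - δ) + K := by
    have := Real.rpow_nonneg hx0.le (1 - δ)
    linarith
  calc EE (Pn θ δ N) (Rn δ N) t ≤ Real.exp 1 * ((((Pn θ δ N).card : ℝ) + 1) * t) ^ (Rn δ N) :=
        EE_le _ _ ht
    _ ≤ Real.exp 1 * (Real.exp (x ^ (1 - δ) + K)) ^ (Rn δ N) := by gcongr
    _ = Real.exp (1 + (Rn δ N) * (x ^ (1 - δ) + K)) := by
        rw [← Real.exp_nat_mul, ← Real.exp_add]
    _ ≤ Real.exp (x / 8) := by
        apply Real.exp_le_exp.mpr
        have h11 : ((Rn δ N : ℕ) : ℝ) * (x ^ (1 - δ) + K) ≤ x ^ (δ / 2) * (x ^ (1 - δ) + K) :=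
          mul_le_mul_of_nonneg_right hR hy0
        have h12 : x ^ (δ / 2) * x ^ (1 - δ) = x ^ (1 - δ / 2) := by
          rw [← Real.rpow_add hx0]; ring_nf
        have h13 : x ^ (δ / 2) * K ≤ x / 32 := by
          have h14 : x ^ (δ / 2) * (K + 1) ≤ x / 32 := by
            calc x ^ (δ / 2) * (K + 1) ≤ 1 / (32 * (K + 1)) * x * (K + 1) := by
                  apply mul_le_mul_of_nonneg_right h3 (by linarith)
              _ = x / 32 := by field_simp
          have h15 : 0 ≤ x ^ (δ / 2) := Real.rpow_nonneg hx0.le _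
          nlinarith
        have h16 : x ^ (δ / 2) * (x ^ (1 - δ) + K) = x ^ (1 - δ / 2) + x ^ (δ / 2) * K := by
          rw [mul_add, h12]
        linarith

lemma SS_big {θ δ t : ℝ} (hδ : 0 < δ) (ht : 1 ≤ t) :
    ∀ᶠ N : ℕ in atTop,
      Real.exp (t * PP (Pn θ δ N) - 2 * t ^ 2) / 2 ≤ SS (Pn θ δ N) (Rn δ N) t := by
  obtain ⟨C, hC⟩ := PP_upper θ hδ
  set K : ℝ := t * C + 2 * t ^ 2 + 2 * Real.log 2 with hK
  have hlog2 : 0 < Real.log 2 := Real.log_pos (by norm_num)
  filter_upwards [hC, tendsto_logN.eventually (ev_log_pow (b := δ / 2)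
      (c := Real.log 2 / (2 * t)) (by linarith) (by positivity)),
    tendsto_logN.eventually (ev_const_pow (b := δ / 2) (c := Real.log 2 / 2) (by linarith)
      K (by positivity)), tendsto_logN.eventually_ge_atTop 1] with N h1 h2 h3 h4
  set x := Real.log (N : ℝ) with hx
  have hR : x ^ (δ / 2) ≤ ((Rn δ N : ℕ) : ℝ) + 1 := (Nat.lt_floor_add_one _).le
  have h5 := SS_lower (P := Pn θ δ N) (Rn δ N) (by linarith : 0 ≤ t)
  have h6 : Real.exp (2 * t * PP (Pn θ δ N)) / 2 ^ (Rn δ N)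
      ≤ Real.exp (t * PP (Pn θ δ N) - 2 * t ^ 2) / 2 := by
    have h7 : (2:ℝ) ^ (Rn δ N) = Real.exp ((Rn δ N) * Real.log 2) := by
      rw [mul_comm, Real.exp_mul, Real.exp_log (by norm_num), Real.rpow_natCast]
    have h8 : (2:ℝ) = Real.exp (Real.log 2) := (Real.exp_log (by norm_num)).symm
    rw [h7, ← Real.exp_sub]
    have h9 : Real.exp (t * PP (Pn θ δ N) - 2 * t ^ 2) / 2
        = Real.exp (t * PP (Pn θ δ N) - 2 * t ^ 2 - Real.log 2) := by
      rw [Real.exp_sub _ (Real.log 2), Real.exp_log (by norm_num)]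
    rw [h9]
    apply Real.exp_le_exp.mpr
    have h10 : t * PP (Pn θ δ N) ≤ t * (Real.log x + C) :=
      mul_le_mul_of_nonneg_left h1 (by linarith)
    have h11 : t * Real.log x ≤ Real.log 2 / 2 * x ^ (δ / 2) := by
      calc t * Real.log x ≤ t * (Real.log 2 / (2 * t) * x ^ (δ / 2)) :=
            mul_le_mul_of_nonneg_left h2 (by linarith)
        _ = _ := by field_simp
    have h12 : x ^ (δ / 2) * Real.log 2 ≤ (((Rn δ N : ℕ) : ℝ) + 1) * Real.log 2 :=
      mul_le_mul_of_nonneg_right hR hlog2.le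
    nlinarith
  linarith

theorem low_aux {t e δ θ ρ : ℝ} (ht : 1 ≤ t) (he : 0 < e) (hδ : 0 < δ) (hδ1 : δ < 1 / 2)
    (hθ : 0 < θ) (hρ : 0 < ρ) (hq : (t + 1 + e) * Real.log (t + 1) - t < θ - ρ)
    (hρ2 : ρ < e ^ 2 / (8 * (t + 1 + e)) * (1 - 2 * δ)) :
    ∀ᶠ N : ℕ in atTop,
      ((#{k ∈ range N | ∀ i < Jn θ N, ((Fp (Pn θ δ N) (k + (1 + i))).card : ℝ)
        < (t + 1 - e) * PP (Pn θ δ N)} : ℕ) : ℝ) ≤ 6 * (Real.log N) ^ (-ρ) * N := by
  obtain ⟨C, hC⟩ := PP_upper θ hδ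
  set q : ℝ := (t + 1 + e) * Real.log (t + 1) - t with hqd
  set κ : ℝ := e ^ 2 / (8 * (t + 1 + e)) with hκ
  have hκ0 : 0 < κ := by positivity
  have hlogt : t / (t + 1) ≤ Real.log (t + 1) := by
    have h := Real.one_sub_inv_le_log_of_pos (show 0 < t + 1 by linarith)
    have h2 : 1 - (t + 1)⁻¹ = t / (t + 1) := by field_simp; ring
    linarith
  have hq0 : 0 ≤ q := by
    rw [div_le_iff₀ (by linarith)] at hlogt
    have : 0 ≤ e * Real.log (t + 1) := mul_nonneg he.le (Real.log_nonneg (by linarith))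
    rw [hqd]; nlinarith
  filter_upwards [hC, PP_lower hθ hδ (by linarith : δ < 1), EE_small (θ := θ) hδ (by linarith) ht,
    SS_big (θ := θ) hδ ht, tendsto_logN.eventually_ge_atTop 1, eventually_ge_atTop 1,
    tendsto_logN.eventually (ev_log_pow (b := 1) (c := 1 / (2 * ρ)) (by norm_num) (by positivity)),
    tendsto_loglogN.eventually_ge_atTop
      ((2 * t ^ 2 + Real.log 8) / (κ * (1 - 2 * δ) - ρ)),
    tendsto_logN.eventually (ev_pow (a := q) (b := θ - ρ)
      (c := 1 / 2 * Real.exp (-(2 * t ^ 2)) * Real.exp (-(q * C))) hq (by positivity)),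
    tendsto_logN.eventually (ev_log_pow (b := 1) (c := 1 / (2 * θ)) (by norm_num) (by positivity)),
    tendsto_logN.eventually_ge_atTop 4,
    tendsto_logN.eventually (ev_const_pow (b := ρ) (c := 1) hρ 6 (by norm_num))]
    with N h1 h2 h3 h4 h5 h6 h7 h8 h9 h10 h11 h12
  set x := Real.log (N : ℝ) with hx
  have hx0 : 0 < x := by linarith
  set η : ℝ := x ^ (-ρ) with hηd
  have hη : 0 < η := Real.rpow_pos_of_pos hx0 _
  have hη6 : η ≤ 1 / 6 := by
    rw [hηd, Real.rpow_neg hx0.le, inv_eq_one_div]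
    exact one_div_le_one_div_of_le (by norm_num) (by linarith)
  have hηlog : Real.log η = -(ρ * Real.log x) := by
    rw [hηd, Real.log_rpow hx0]; ring
  set P := Pn θ δ N with hP
  set Q := PP P with hQ
  have hNpos : (0:ℝ) < N := by exact_mod_cast h6
  have hNx : (N:ℝ) = Real.exp x := (Real.exp_log hNpos).symm
  have hS1 := one_le_SS P (Rn δ N) (by linarith : 0 ≤ t)
  have hS0 : 0 < SS P (Rn δ N) t := by linarith
  have hPprime : ∀ p ∈ P, p.Prime := fun p hp => (mem_filter.mp hp).2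
  have hPJ : ∀ p ∈ P, Jn θ N ≤ p := fun p hp => (mem_Icc.mp (mem_filter.mp hp).1).1
  have hJ0 : 0 < Jn θ N := by unfold Jn; omega
  have hE0 : 0 ≤ EE P (Rn δ N) t := sum_nonneg fun D _ => by positivity
  -- `J ≤ N`
  have hJN : ((Jn θ N : ℕ) : ℝ) ≤ N := by
    have h12 : ((Jn θ N : ℕ) : ℝ) ≤ x ^ θ + 1 := by
      unfold Jn
      push_cast
      have := Nat.floor_le (Real.rpow_nonneg (by linarith : 0 ≤ x) θ)
      linarith
    have h13 : x ^ θ ≤ Real.exp (x / 2) := by
      rw [Real.rpow_def_of_pos (by linarith)]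
      apply Real.exp_le_exp.mpr
      rw [Real.rpow_one] at h10
      calc Real.log x * θ ≤ (1 / (2 * θ) * x) * θ := mul_le_mul_of_nonneg_right h10 hθ.le
        _ = x / 2 := by field_simp
    have h14 : Real.exp (x / 2) + 1 ≤ Real.exp x := by
      have h15 : Real.exp x = Real.exp (x / 2) * Real.exp (x / 2) := by
        rw [← Real.exp_add]; ring_nf
      have h16 := Real.add_one_le_exp (x / 2)
      rw [h15]; nlinarith
    rw [hNx]; linarith
  have hE : ∀ r : ℝ, r ≤ x / 2 → Real.exp r ≤ η * N := by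
    intro r hr
    have h12 : η = Real.exp (Real.log η) := (Real.exp_log hη).symm
    rw [hNx, h12, ← Real.exp_add]
    apply Real.exp_le_exp.mpr
    rw [Real.rpow_one] at h7
    have h13 : ρ * Real.log x ≤ x / 2 := by
      calc ρ * Real.log x ≤ ρ * (1 / (2 * ρ) * x) := mul_le_mul_of_nonneg_left h7 hρ.le
        _ = x / 2 := by field_simp
    rw [hηlog]
    linarith
  refine bad_le hPprime hPJ (Rn δ N) ht he hη hη6 (by omega) hJ0 hS0 ?_ ?_ ?_ ?_
  · have h12 := hE (x / 8) (by linarith)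
    have h13 : η * N ≤ η * (N * SS P (Rn δ N) t) := by
      have : (N:ℝ) ≤ N * SS P (Rn δ N) t := by nlinarith
      exact mul_le_mul_of_nonneg_left this hη.le
    linarith
  · have h12 : 2 * (((N : ℝ) + (Jn θ N : ℕ)) * Real.exp ((t - κ) * Q))
        ≤ 2 * ((2 * N) * Real.exp ((t - κ) * Q)) := by
      have : (N : ℝ) + (Jn θ N : ℕ) ≤ 2 * N := by linarith
      have h13 := Real.exp_pos ((t - κ) * Q)
      nlinarith
    refine h12.trans ?_
    have h14 : 8 * Real.exp ((t - κ) * Q) ≤ η * Real.exp (t * Q - 2 * t ^ 2) := by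
      have h15 : (8:ℝ) = η * Real.exp (Real.log (8 / η)) := by
        rw [Real.exp_log (by positivity)]; field_simp
      rw [h15, mul_assoc, ← Real.exp_add]
      apply mul_le_mul_of_nonneg_left _ hη.le
      apply Real.exp_le_exp.mpr
      have h16 : 0 < κ * (1 - 2 * δ) - ρ := by linarith
      rw [div_le_iff₀ h16] at h8
      have h17 : κ * ((1 - 2 * δ) * Real.log x) ≤ κ * Q := mul_le_mul_of_nonneg_left h2 hκ0.le
      have h18 : Real.log (8 / η) = Real.log 8 + ρ * Real.log x := by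
        rw [Real.log_div (by norm_num) hη.ne', hηlog]; ring
      rw [h18]
      nlinarith
    have h18 : η * (N * (Real.exp (t * Q - 2 * t ^ 2) / 2)) ≤ η * (N * SS P (Rn δ N) t) := by
      gcongr
    nlinarith
  · have hlog : 0 < Real.log (t + 1) := Real.log_pos (by linarith)
    have h12 : (t + 1) ^ ((t + 1 + e) * Q) = Real.exp (q * Q) * Real.exp (t * Q) := by
      rw [Real.rpow_def_of_pos (by linarith), ← Real.exp_add, hqd]
      ring_nf
    rw [h12]
    have h13 : Real.exp (q * Q) ≤ x ^ q * Real.exp (q * C) := by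
      rw [Real.rpow_def_of_pos (by linarith), ← Real.exp_add]
      apply Real.exp_le_exp.mpr
      nlinarith
    have h14 : x ^ q * Real.exp (q * C) ≤ η / 2 * Real.exp (-(2 * t ^ 2)) * x ^ θ := by
      have e1 : x ^ (θ - ρ) = η * x ^ θ := by
        rw [hηd, ← Real.rpow_add hx0]; ring_nf
      calc x ^ q * Real.exp (q * C)
          ≤ (1 / 2 * Real.exp (-(2 * t ^ 2)) * Real.exp (-(q * C)) * x ^ (θ - ρ))
            * Real.exp (q * C) :=
            mul_le_mul_of_nonneg_right h9 (Real.exp_pos _).le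
        _ = η / 2 * Real.exp (-(2 * t ^ 2)) * x ^ θ * (Real.exp (-(q * C)) * Real.exp (q * C)) := by
            rw [e1]; ring
        _ = _ := by rw [← Real.exp_add]; simp
    have h15 : x ^ θ ≤ ((Jn θ N : ℕ) : ℝ) := by
      unfold Jn; push_cast; exact (Nat.lt_floor_add_one _).le
    calc Real.exp (q * Q) * Real.exp (t * Q)
        ≤ (η / 2 * Real.exp (-(2 * t ^ 2)) * x ^ θ) * Real.exp (t * Q) :=
          mul_le_mul_of_nonneg_right (h13.trans h14) (Real.exp_pos _).le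
      _ ≤ (η / 2 * Real.exp (-(2 * t ^ 2)) * ((Jn θ N : ℕ) : ℝ)) * Real.exp (t * Q) := by
          gcongr
      _ = η * (((Jn θ N : ℕ) : ℝ) * (Real.exp (t * Q - 2 * t ^ 2) / 2)) := by
          have : Real.exp (t * Q - 2 * t ^ 2) = Real.exp (t * Q) * Real.exp (-(2 * t ^ 2)) := by
            rw [← Real.exp_add]; ring_nf
          rw [this]; ring
      _ ≤ _ := by gcongr
  · have h12 := hE (x / 4) (by linarith)
    have h13 : EE P (Rn δ N) t ^ 2 ≤ Real.exp (x / 4) := by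
      calc EE P (Rn δ N) t ^ 2 ≤ (Real.exp (x / 8)) ^ 2 := by gcongr
        _ = _ := by rw [← Real.exp_nat_mul]; push_cast; ring_nf
    have h14 : η * N ≤ η * (N * SS P (Rn δ N) t ^ 2) := by
      have hS2 : 1 ≤ SS P (Rn δ N) t ^ 2 := one_le_pow₀ hS1
      have : (N:ℝ) ≤ N * SS P (Rn δ N) t ^ 2 := by nlinarith
      exact mul_le_mul_of_nonneg_left this hη.le
    linarith

end Pool.Agent.Helper46_MNO
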