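import Pool.Agent.Helper46_MNO.Low
import Pool.Agent.Helper46_MNO.Const

set_option autoImplicit false

/-!
The lower half of the normal order: for almost all `n` there is `m < n` with
`m + τ(m) ≥ n + (log n)^θ`, for every `θ < c log 2`.
-/

namespace Pool.Agent.Helper46_MNO

open Finset Real Filter Topology

/-- There is `m < n` with `n + (log n)^β ≤ m + τ(m)`. -/
def LowOK (β : ℝ) (n : ℕ) : Prop :=
  ∃ m : ℕ, 1 ≤ m ∧ m < n ∧ (n : ℝ) + (Real.log n) ^ β ≤ m + (m.divisors.card : ℝ)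

lemma choose_par {c ε : ℝ} (hc : 2 < c) (h : c * Real.log (2 * Real.exp 1 / c) = 1)
    (hε : 0 < ε) :
    ∃ t s θ : ℝ, 1 ≤ t ∧ 0 < s ∧ s < 1 / 2 ∧ 0 < θ ∧ c * Real.log 2 - ε ≤ θ ∧
      (t + 1 + s) * Real.log (t + 1) - t < θ ∧
      θ < (t + 1 - s) * (1 - 2 * s) * Real.log 2 := by
  have hh1 : hh c = 1 := h
  have hlog2 : 0 < Real.log 2 := Real.log_pos (by norm_num)
  -- `Q v = v log v - v + 1`
  have hQ : ContinuousAt (fun v : ℝ => v * Real.log v - v + 1) c := by
    apply ContinuousAt.add _ continuousAt_const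
    apply ContinuousAt.sub _ continuousAt_id
    exact continuousAt_id.mul (Real.continuousAt_log (by linarith))
  have hQc : c * Real.log c - c + 1 = c * Real.log 2 := by
    rw [hh_eq (by linarith)] at hh1
    linarith
  have e1 : ∀ᶠ v in 𝓝[<] c, c * Real.log 2 - ε < v * Real.log v - v + 1 := by
    have h1 := hQ.tendsto
    rw [hQc] at h1
    exact (h1.mono_left nhdsWithin_le_nhds).eventually (lt_mem_nhds (by linarith))
  have e2 : ∀ᶠ v in 𝓝[<] c, 2 < v :=
    (tendsto_id.mono_left nhdsWithin_le_nhds).eventually (lt_mem_nhds hc)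
  have e3 : ∀ᶠ v in 𝓝[<] c, v < c := eventually_mem_nhdsWithin
  obtain ⟨v, hv1, hv2, hv3⟩ := (e1.and (e2.and e3)).exists
  have hv4 : 1 < hh v := by
    have := hh_lt hv2.le hv3
    linarith
  rw [hh_eq (by linarith)] at hv4
  have hgap : v * Real.log v - v + 1 < v * Real.log 2 := by linarith
  have hQpos : 0 < v * Real.log v - v + 1 := by
    have h1 := Real.one_sub_inv_le_log_of_pos (show 0 < v / 2 by linarith)
    have h2 : Real.log (v / 2) = Real.log v - Real.log 2 := Real.log_div (by linarith) (by norm_num)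
    have h3 : Real.log 2 > 0.6931471803 := Real.log_two_gt_d9
    have h4 : (v / 2)⁻¹ = 2 / v := by field_simp
    rw [h4, h2] at h1
    have h5 : v * (1 - 2 / v) ≤ v * (Real.log v - Real.log 2) :=
      mul_le_mul_of_nonneg_left h1 (by linarith)
    have h6 : v * (1 - 2 / v) = v - 2 := by
      have : v ≠ 0 := by linarith
      field_simp
    nlinarith
  set θ : ℝ := ((v * Real.log v - v + 1) + v * Real.log 2) / 2 with hθ
  have hF : ContinuousAt (fun s : ℝ => (v + s) * Real.log v - (v - 1)) 0 := by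
    fun_prop
  have hG : ContinuousAt (fun s : ℝ => (v - s) * (1 - 2 * s) * Real.log 2) 0 := by
    fun_prop
  have e4 : ∀ᶠ s in 𝓝[>] (0:ℝ), (v + s) * Real.log v - (v - 1) < θ := by
    have h1 := hF.tendsto
    simp only [add_zero] at h1
    exact (h1.mono_left nhdsWithin_le_nhds).eventually (gt_mem_nhds (by rw [hθ]; linarith))
  have e5 : ∀ᶠ s in 𝓝[>] (0:ℝ), θ < (v - s) * (1 - 2 * s) * Real.log 2 := by
    have h1 := hG.tendsto
    simp only [sub_zero, mul_zero, mul_one] at h1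
    exact (h1.mono_left nhdsWithin_le_nhds).eventually (lt_mem_nhds (by rw [hθ]; linarith))
  have e6 : ∀ᶠ s in 𝓝[>] (0:ℝ), s < 1 / 2 :=
    (tendsto_id.mono_left nhdsWithin_le_nhds).eventually (gt_mem_nhds (by norm_num))
  have e7 : ∀ᶠ s in 𝓝[>] (0:ℝ), 0 < s := eventually_mem_nhdsWithin
  obtain ⟨s, hs1, hs2, hs3, hs4⟩ := (e4.and (e5.and (e6.and e7))).exists
  refine ⟨v - 1, s, θ, by linarith, hs4, hs3, by rw [hθ]; nlinarith, by rw [hθ]; linarith, ?_, ?_⟩
  · rw [sub_add_cancel]; exact hs1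
  · rw [sub_add_cancel]; exact hs2

open Classical in
/-- The lower half. -/
theorem low_half {c ε : ℝ} (hc : 2 < c) (h : c * Real.log (2 * Real.exp 1 / c) = 1)
    (hε : 0 < ε) :
    ∃ ρ : ℝ, 0 < ρ ∧ ∀ᶠ X : ℕ in atTop,
      ((#{n ∈ Finset.Icc 1 X | ¬ LowOK (c * Real.log 2 - ε) n} : ℕ) : ℝ)
        ≤ (Real.log X) ^ (-ρ) * X := by
  obtain ⟨t, s, θ, ht, hs, hs2, hθ, hθα, hq, hθ2⟩ := choose_par hc h hε
  set κ : ℝ := s ^ 2 / (8 * (t + 1 + s)) * (1 - 2 * s) with hκ
  have hκ0 : 0 < κ := by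
    have : 0 < 1 - 2 * s := by linarith
    positivity
  set ρ : ℝ := min κ (θ - ((t + 1 + s) * Real.log (t + 1) - t)) / 2 with hρd
  have hmin : 0 < min κ (θ - ((t + 1 + s) * Real.log (t + 1) - t)) :=
    lt_min hκ0 (by linarith)
  have hρ : 0 < ρ := by rw [hρd]; linarith
  have hρ1 : ρ < κ := by
    have := min_le_left κ (θ - ((t + 1 + s) * Real.log (t + 1) - t))
    rw [hρd]; linarith
  have hρ2 : (t + 1 + s) * Real.log (t + 1) - t < θ - ρ := by
    have := min_le_right κ (θ - ((t + 1 + s) * Real.log (t + 1) - t))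
    rw [hρd]; linarith
  refine ⟨ρ / 2, by linarith, ?_⟩
  set θ2 : ℝ := (t + 1 - s) * (1 - 2 * s) * Real.log 2 with hθ2d
  filter_upwards [low_aux (e := s) (δ := s) (ρ := ρ) ht hs hs hs2 hθ hρ hρ2 hρ1,
    PP_lower hθ hs (by linarith : s < 1), tendsto_logN.eventually_ge_atTop 1,
    tendsto_logN.eventually (ev_pow (a := θ) (b := θ2) (c := 1 / 4) hθ2 (by norm_num)),
    tendsto_logN.eventually (ev_const_pow (b := θ2) (c := 1 / 4) (hθ.trans hθ2) 1 (by norm_num)),
    tendsto_logN.eventually (ev_log_pow (b := 1) (c := 1 / (2 * (θ + ρ / 2))) (by norm_num)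
      (by positivity)),
    tendsto_logN.eventually_ge_atTop 10, eventually_ge_atTop 2,
    tendsto_logN.eventually (ev_const_pow (b := ρ / 2) (c := 1) (by linarith) 12 (by norm_num))]
    with X h1 h2 h3 h4 h5 h6 h7 h8 h9
  set x := Real.log (X : ℝ) with hx
  set J := Jn θ X with hJ
  set P := Pn θ s X with hP
  have hXpos : (0:ℝ) < X := by exact_mod_cast (by omega : 0 < X)
  have hXx : (X:ℝ) = Real.exp x := (Real.exp_log hXpos).symm
  have hx0 : 0 < x := by linarith
  have hJle : (J : ℝ) ≤ x ^ θ + 1 := by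
    rw [hJ]; unfold Jn; push_cast
    have := Nat.floor_le (Real.rpow_nonneg hx0.le θ)
    linarith
  -- the bad set
  set B := {k ∈ range X | ∀ i < J, ((Fp P (k + (1 + i))).card : ℝ) < (t + 1 - s) * PP P} with hB
  have hsub : {n ∈ Finset.Icc 1 X | ¬ LowOK (c * Real.log 2 - ε) n}
      ⊆ Finset.Icc 1 (J + 1) ∪ B.image (fun k => k + (J + 1)) := by
    intro n hn
    rw [mem_filter, mem_Icc] at hn
    obtain ⟨⟨hn1, hnX⟩, hnb⟩ := hn
    unfold LowOK at hnb
    rw [mem_union]
    by_cases hnJ : n ≤ J + 1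
    · left; exact mem_Icc.mpr ⟨hn1, hnJ⟩
    right
    rw [mem_image]
    refine ⟨n - (J + 1), ?_, by omega⟩
    rw [hB, mem_filter, mem_range]
    refine ⟨by omega, ?_⟩
    intro i hi
    by_contra hcon
    push Not at hcon
    apply hnb
    set m := n - (J + 1) + (1 + i) with hm
    refine ⟨m, by omega, by omega, ?_⟩
    -- the divisors of `m`
    have hm0 : m ≠ 0 := by omega
    have hd1 : (2:ℝ) ^ (Fp P m).card ≤ (m.divisors.card : ℝ) := by
      have e1 := Pool.Agent.Helper45_DivisorSieve.two_pow_card_primeFactors_le hm0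
      have e2 : (Fp P m).card ≤ m.primeFactors.card := by
        apply card_le_card
        intro p hp
        unfold Fp at hp
        rw [mem_filter] at hp
        have hpp : p.Prime := (mem_filter.mp hp.1).2
        exact Nat.mem_primeFactors.mpr ⟨hpp, hp.2, hm0⟩
      have e3 : 2 ^ (Fp P m).card ≤ m.divisors.card :=
        (Nat.pow_le_pow_right (by norm_num) e2).trans e1
      exact_mod_cast e3
    have hd2 : x ^ θ2 ≤ (2:ℝ) ^ (Fp P m).card := by
      rw [← Real.rpow_natCast, Real.rpow_def_of_pos hx0, Real.rpow_def_of_pos (by norm_num)]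
      apply Real.exp_le_exp.mpr
      have hts : 0 < t + 1 - s := by linarith
      have e4 : (t + 1 - s) * ((1 - 2 * s) * Real.log x) ≤ ((Fp P m).card : ℝ) :=
        (mul_le_mul_of_nonneg_left h2 hts.le).trans hcon
      have hlog2 : 0 < Real.log 2 := Real.log_pos (by norm_num)
      calc Real.log x * θ2 = Real.log 2 * ((t + 1 - s) * ((1 - 2 * s) * Real.log x)) := by
            rw [hθ2d]; ring
        _ ≤ _ := mul_le_mul_of_nonneg_left e4 hlog2.le
    have hlogn : (Real.log n) ^ (c * Real.log 2 - ε) ≤ x ^ θ := by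
      have hn3 : 2 < n := by unfold Jn at hJ; omega
      have e5 : (2:ℝ) < n := by exact_mod_cast hn3
      have e6 : 0 < Real.log n := Real.log_pos (by linarith)
      have e7 : Real.log n ≤ x := by
        rw [hx]
        exact Real.log_le_log (by linarith) (by exact_mod_cast hnX)
      by_cases hneg : 0 ≤ c * Real.log 2 - ε
      · calc (Real.log n) ^ (c * Real.log 2 - ε) ≤ x ^ (c * Real.log 2 - ε) :=
              Real.rpow_le_rpow e6.le e7 hneg
          _ ≤ x ^ θ := Real.rpow_le_rpow_of_exponent_le h3 hθα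
      · have e8 : 1 ≤ Real.log n := by
          have h9 := Real.exp_one_lt_d9
          have h10 : (3:ℝ) ≤ n := by exact_mod_cast hn3
          rw [Real.le_log_iff_exp_le (by linarith)]
          linarith
        have e9 : (Real.log n) ^ (c * Real.log 2 - ε) ≤ 1 :=
          Real.rpow_le_one_of_one_le_of_nonpos e8 (by linarith)
        exact e9.trans (Real.one_le_rpow h3 hθ.le)
    have hnm : (n : ℝ) ≤ m + J := by
      have : n ≤ m + J := by omega
      exact_mod_cast this
    have hθx : 0 ≤ x ^ θ := Real.rpow_nonneg hx0.le θ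
    linarith
  have hcard := card_le_card hsub
  have hcard2 : ((#{n ∈ Finset.Icc 1 X | ¬ LowOK (c * Real.log 2 - ε) n} : ℕ) : ℝ)
      ≤ (J + 1) + B.card := by
    have e1 := hcard.trans (card_union_le _ _)
    have e2 : (B.image (fun k => k + (J + 1))).card ≤ B.card := card_image_le
    rw [Nat.card_Icc] at e1
    have e3 : (#{n ∈ Finset.Icc 1 X | ¬ LowOK (c * Real.log 2 - ε) n} : ℕ)
        ≤ (J + 1) + B.card := by omega
    exact_mod_cast e3
  have hρx : 0 < x ^ (ρ / 2) := Real.rpow_pos_of_pos hx0 _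
  have hneg : x ^ (-(ρ / 2)) = (x ^ (ρ / 2))⁻¹ := Real.rpow_neg hx0.le _
  have hx2 : x ^ θ + 2 ≤ x ^ (-(ρ / 2)) * X / 2 := by
    have e1 : x ^ θ * x ^ (ρ / 2) ≤ Real.exp (x / 2) := by
      rw [← Real.rpow_add hx0, Real.rpow_def_of_pos hx0]
      apply Real.exp_le_exp.mpr
      rw [Real.rpow_one] at h6
      have hθρ : 0 < θ + ρ / 2 := by linarith
      calc Real.log x * (θ + ρ / 2) ≤ (1 / (2 * (θ + ρ / 2)) * x) * (θ + ρ / 2) :=
            mul_le_mul_of_nonneg_right h6 hθρ.le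
        _ = x / 2 := by field_simp
    have e2 : 6 ≤ Real.exp (x / 2) := by
      have := Real.add_one_le_exp (x / 2)
      linarith
    have e3 : Real.exp x = Real.exp (x / 2) * Real.exp (x / 2) := by
      rw [← Real.exp_add]; ring_nf
    have e4 : 1 ≤ x ^ θ := Real.one_le_rpow h3 hθ.le
    have e5 : (x ^ θ + 2) * x ^ (ρ / 2) ≤ X / 2 := by
      have e6 : (x ^ θ + 2) * x ^ (ρ / 2) ≤ 3 * (x ^ θ * x ^ (ρ / 2)) := by nlinarith
      rw [hXx, e3]
      nlinarith
    rw [hneg, ← div_eq_inv_mul, div_div, le_div_iff₀ (by positivity)]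
    linarith
  have h10 : (B.card : ℝ) ≤ 6 * x ^ (-ρ) * X := h1
  have h11 : 6 * x ^ (-ρ) * X ≤ x ^ (-(ρ / 2)) * X / 2 := by
    have e1 : x ^ (-ρ) = x ^ (-(ρ / 2)) * x ^ (-(ρ / 2)) := by
      rw [← Real.rpow_add hx0]; ring_nf
    have e2 : x ^ (-(ρ / 2)) ≤ 1 / 12 := by
      rw [hneg, inv_eq_one_div]
      exact one_div_le_one_div_of_le (by norm_num) (by linarith)
    have e3 : 0 < x ^ (-(ρ / 2)) := Real.rpow_pos_of_pos hx0 _
    rw [e1]
    have e4 : x ^ (-(ρ / 2)) * x ^ (-(ρ / 2)) ≤ 1 / 12 * x ^ (-(ρ / 2)) :=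
      mul_le_mul_of_nonneg_right e2 e3.le
    nlinarith
  linarith

end Pool.Agent.Helper46_MNO
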