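import Pool.Agent.Helper46_MNO.Second
import Pool.Agent.Helper46_MNO.Harm
import Pool.Agent.Helper45_DivisorSieve.PrimeSums

set_option autoImplicit false

/-!
The choice of the parameters.
-/

namespace Pool.Agent.Helper46_MNO

open Finset Real Filter Topology

lemma SS_lower {P : Finset ℕ} (R : ℕ) {t : ℝ} (ht : 0 ≤ t) :
    Real.exp (t * PP P - 2 * t ^ 2) - Real.exp (2 * t * PP P) / 2 ^ R ≤ SS P R t := by
  have h1 : Real.exp (t * PP P - 2 * t ^ 2) ≤ ∏ p ∈ P, (1 + t / p) := by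
    have h2 : t * PP P - 2 * t ^ 2 ≤ ∑ p ∈ P, (t / p - (t / p) ^ 2) := by
      have h3 : ∑ p ∈ P, (t / (p:ℝ) - (t / (p:ℝ)) ^ 2)
          = t * PP P - t ^ 2 * ∑ p ∈ P, 1 / (p : ℝ) ^ 2 := by
        unfold PP
        rw [mul_sum, mul_sum, ← sum_sub_distrib]
        exact sum_congr rfl fun p _ => by rw [div_pow]; ring
      rw [h3]
      have := sum_inv_sq_le P
      nlinarith [sq_nonneg t]
    refine (Real.exp_le_exp.mpr h2).trans ?_
    rw [Real.exp_sum]
    apply Finset.prod_le_prod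
    · intro p _; positivity
    · intro p _
      have hx : 0 ≤ t / (p:ℝ) := by positivity
      have h4 := Real.one_sub_inv_le_log_of_pos (show 0 < 1 + t / (p:ℝ) by linarith)
      have h6 : t / (p:ℝ) - (t / (p:ℝ)) ^ 2 ≤ 1 - (1 + t / (p:ℝ))⁻¹ := by
        set x := t / (p:ℝ)
        have h5 : 1 - (1 + x)⁻¹ = x / (1 + x) := by
          have : 1 + x ≠ 0 := by linarith
          field_simp; ring
        rw [h5, le_div_iff₀ (by linarith)]
        nlinarith [pow_nonneg hx 3]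
      calc Real.exp (t / (p:ℝ) - (t / (p:ℝ)) ^ 2) ≤ Real.exp (Real.log (1 + t / (p:ℝ))) :=
            Real.exp_le_exp.mpr (h6.trans h4)
        _ = _ := Real.exp_log (by linarith)
  have h3 : ∏ p ∈ P, (1 + t / p) ≤ SS P R t + Real.exp (2 * t * PP P) / 2 ^ R := by
    rw [← sum_powerset_div]
    have h4 : ∑ D ∈ P.powerset, t ^ D.card / ((∏ p ∈ D, p : ℕ) : ℝ)
        ≤ SS P R t + (∑ D ∈ P.powerset, (2 * t) ^ D.card / ((∏ p ∈ D, p : ℕ) : ℝ)) / 2 ^ R := by
      unfold SS Dset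
      rw [sum_filter, sum_div, ← sum_add_distrib]
      apply sum_le_sum
      intro D _
      split_ifs with h
      · have : 0 ≤ (2 * t) ^ D.card / ((∏ p ∈ D, p : ℕ) : ℝ) / 2 ^ R := by positivity
        linarith
      · rw [zero_add, mul_pow]
        have h5 : (1:ℝ) ≤ 2 ^ D.card / 2 ^ R := by
          rw [one_le_div (by positivity)]
          exact pow_le_pow_right₀ (by norm_num) (by omega)
        have h6 : (2 ^ D.card * t ^ D.card) / ((∏ p ∈ D, p : ℕ) : ℝ) / 2 ^ R
            = (2 ^ D.card / 2 ^ R) * (t ^ D.card / ((∏ p ∈ D, p : ℕ) : ℝ)) := by ring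
        rw [h6]
        have h7 : 0 ≤ t ^ D.card / ((∏ p ∈ D, p : ℕ) : ℝ) := by positivity
        nlinarith
    refine h4.trans ?_
    rw [sum_powerset_div]
    have h8 := prod_one_add_le P (s := 2 * t) (by linarith)
    gcongr
  linarith

lemma one_le_SS (P : Finset ℕ) (R : ℕ) {t : ℝ} (ht : 0 ≤ t) : 1 ≤ SS P R t := by
  unfold SS
  have h1 : (∅ : Finset ℕ) ∈ Dset P R := by simp [Dset]
  have h2 := single_le_sum (f := fun D : Finset ℕ => t ^ D.card / ((∏ p ∈ D, p : ℕ) : ℝ))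
    (fun D _ => by positivity) h1
  simpa using h2

lemma EE_le (P : Finset ℕ) (R : ℕ) {t : ℝ} (ht : 1 ≤ t) :
    EE P R t ≤ Real.exp 1 * (((P.card : ℝ) + 1) * t) ^ R := by
  set s : ℝ := ((P.card : ℝ) + 1) * t with hs
  have hn : (0:ℝ) ≤ P.card := Nat.cast_nonneg _
  have hs1 : 1 ≤ s := by rw [hs]; nlinarith
  have h1 : EE P R t ≤ ∑ D ∈ P.powerset, (t / s) ^ D.card * s ^ R := by
    unfold EE Dset
    rw [sum_filter]
    apply sum_le_sum
    intro D _
    split_ifs with h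
    · have h2 : (t / s) ^ D.card * s ^ R = t ^ D.card * (s ^ R / s ^ D.card) := by
        rw [div_pow]; ring
      rw [h2]
      have h3 : 1 ≤ s ^ R / s ^ D.card := by
        rw [one_le_div (by positivity)]
        exact pow_le_pow_right₀ hs1 h
      have h4 : 0 ≤ t ^ D.card := by positivity
      nlinarith
    · positivity
  refine h1.trans ?_
  rw [← sum_mul]
  have h2 := Finset.sum_pow_mul_eq_add_pow (t / s) 1 P
  simp only [one_pow, mul_one] at h2
  rw [h2]
  apply mul_le_mul_of_nonneg_right _ (by positivity)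
  have h3 : t / s = 1 / ((P.card : ℝ) + 1) := by
    rw [hs]; field_simp
  have h4 := Real.add_one_le_exp (t / s)
  calc (t / s + 1) ^ P.card ≤ (Real.exp (t / s)) ^ P.card := by gcongr
    _ = Real.exp (P.card * (t / s)) := by rw [← Real.exp_nat_mul]
    _ ≤ Real.exp 1 := by
      apply Real.exp_le_exp.mpr
      rw [h3, mul_one_div, div_le_one (by linarith)]
      linarith

/-- The number of shifts. -/
noncomputable def Jn (θ : ℝ) (N : ℕ) : ℕ := ⌊(Real.log N) ^ θ⌋₊ + 1

/-- The primes that are used. -/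
noncomputable def Pn (θ δ : ℝ) (N : ℕ) : Finset ℕ :=
  (Finset.Icc (Jn θ N) ⌊Real.exp ((Real.log N) ^ (1 - δ))⌋₊).filter Nat.Prime

/-- The number of primes that are followed. -/
noncomputable def Rn (δ : ℝ) (N : ℕ) : ℕ := ⌊(Real.log N) ^ (δ / 2)⌋₊

lemma tendsto_logN : Tendsto (fun N : ℕ => Real.log (N : ℝ)) atTop atTop :=
  Real.tendsto_log_atTop.comp tendsto_natCast_atTop_atTop

lemma tendsto_loglogN : Tendsto (fun N : ℕ => Real.log (Real.log (N : ℝ))) atTop atTop :=
  Real.tendsto_log_atTop.comp tendsto_logN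

lemma ev_lin {δ : ℝ} (hδ : 0 < δ) (C : ℝ) : ∀ᶠ x : ℝ in atTop, Real.log x + C ≤ δ * x := by
  have h1 := (Real.isLittleO_log_id_atTop.def (half_pos hδ))
  have h2 : ∀ᶠ x : ℝ in atTop, 2 * C / δ ≤ x := eventually_ge_atTop _
  filter_upwards [h1, h2, eventually_ge_atTop 1] with x h3 h4 h5
  simp only [id_eq, norm_eq_abs] at h3
  rw [abs_of_nonneg (by linarith : (0:ℝ) ≤ x)] at h3
  have h6 := le_abs_self (Real.log x)
  rw [div_le_iff₀ hδ] at h4
  nlinarith

lemma PP_upper (θ : ℝ) {δ : ℝ} (hδ : 0 < δ) :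
    ∃ C : ℝ, ∀ᶠ N : ℕ in atTop, PP (Pn θ δ N) ≤ Real.log (Real.log N) + C := by
  obtain ⟨C, hC⟩ := Pool.Agent.Common_Mertens.sum_inv_le
  refine ⟨Real.log 2 + C, ?_⟩
  filter_upwards [tendsto_logN.eventually_ge_atTop 1, eventually_ge_atTop 2] with N h1 hN
  have hN1 : (2:ℝ) ≤ N := by exact_mod_cast hN
  have h2 : Pn θ δ N ⊆ Nat.primesLE N := by
    intro p hp
    unfold Pn at hp
    rw [mem_filter, mem_Icc] at hp
    rw [Nat.mem_primesLE]
    refine ⟨hp.1.2.trans ?_, hp.2⟩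
    apply Nat.floor_le_of_le
    calc Real.exp ((Real.log N) ^ (1 - δ)) ≤ Real.exp (Real.log N) := by
          apply Real.exp_le_exp.mpr
          calc (Real.log N) ^ (1 - δ) ≤ (Real.log N) ^ (1:ℝ) :=
                Real.rpow_le_rpow_of_exponent_le h1 (by linarith)
            _ = _ := Real.rpow_one _
      _ = N := Real.exp_log (by linarith)
  have h3 : PP (Pn θ δ N) ≤ ∑ p ∈ Nat.primesLE N, (1:ℝ) / p :=
    sum_le_sum_of_subset_of_nonneg h2 (fun _ _ _ => by positivity)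
  have h4 := hC N (by omega)
  have h5 : Real.log (Real.log (N + 1)) ≤ Real.log 2 + Real.log (Real.log N) := by
    rw [← Real.log_mul (by norm_num) (by linarith)]
    apply Real.log_le_log
    · exact Real.log_pos (by linarith)
    · have h6 : (2:ℝ) * Real.log N = Real.log ((N:ℝ) ^ 2) := by
        rw [Real.log_pow]; norm_num
      rw [h6]
      apply Real.log_le_log (by linarith)
      nlinarith
  linarith

lemma PP_lower {θ δ : ℝ} (hθ : 0 < θ) (hδ : 0 < δ) (hδ1 : δ < 1) :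
    ∀ᶠ N : ℕ in atTop, (1 - 2 * δ) * Real.log (Real.log N) ≤ PP (Pn θ δ N) := by
  obtain ⟨C, hC⟩ := Pool.Agent.Common_Mertens.sum_inv_le
  filter_upwards [tendsto_loglogN.eventually (ev_lin hδ (1 + C + Real.log (θ + 1))),
    tendsto_logN.eventually_ge_atTop 3, tendsto_loglogN.eventually_ge_atTop 1,
    tendsto_logN.eventually (((tendsto_rpow_atTop (by linarith : 0 < 1 - δ)).eventually_ge_atTop 2))]
    with N e1 e2 e3 e4
  set x := Real.log (N : ℝ) with hx
  have hx1 : 1 ≤ x := by linarith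
  set N' : ℕ := ⌊Real.exp (x ^ (1 - δ))⌋₊ + 1 with hN'
  have hN'1 : Real.exp (x ^ (1 - δ)) ≤ (N' : ℝ) := by
    rw [hN']; push_cast; exact (Nat.lt_floor_add_one _).le
  have hN'3 : 3 ≤ N' := by
    have h1 : (3:ℝ) ≤ Real.exp (x ^ (1 - δ)) := by
      have := Real.add_one_le_exp (x ^ (1 - δ)); linarith
    exact_mod_cast h1.trans hN'1
  have h1 := Pool.Agent.Helper45_DivisorSieve.log_log_le N' hN'3
  have h2 : (1 - δ) * Real.log x ≤ Real.log (Real.log N') := by
    rw [← Real.log_rpow (by linarith)]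
    apply Real.log_le_log (Real.rpow_pos_of_pos (by linarith) _)
    calc x ^ (1 - δ) = Real.log (Real.exp (x ^ (1 - δ))) := (Real.log_exp _).symm
      _ ≤ _ := Real.log_le_log (Real.exp_pos _) hN'1
  have h3 : ∑ p ∈ N'.primesBelow, (1 : ℝ) / p
      ≤ PP (Pn θ δ N) + ∑ p ∈ Nat.primesLE (Jn θ N), (1:ℝ) / p := by
    have h4 : N'.primesBelow ⊆ Pn θ δ N ∪ Nat.primesLE (Jn θ N) := by
      intro p hp
      rw [Nat.mem_primesBelow] at hp
      rw [mem_union]
      by_cases h5 : Jn θ N ≤ p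
      · left
        unfold Pn
        rw [mem_filter, mem_Icc]
        exact ⟨⟨h5, by rw [← hx]; omega⟩, hp.2⟩
      · right
        rw [Nat.mem_primesLE]
        exact ⟨by omega, hp.2⟩
    calc ∑ p ∈ N'.primesBelow, (1 : ℝ) / p
        ≤ ∑ p ∈ Pn θ δ N ∪ Nat.primesLE (Jn θ N), (1 : ℝ) / p :=
          sum_le_sum_of_subset_of_nonneg h4 (fun _ _ _ => by positivity)
      _ ≤ _ := by
          have hui := sum_union_inter (s₁ := Pn θ δ N) (s₂ := Nat.primesLE (Jn θ N))
            (f := fun p : ℕ => (1:ℝ) / p)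
          have : 0 ≤ ∑ p ∈ Pn θ δ N ∩ Nat.primesLE (Jn θ N), (1:ℝ) / p :=
            sum_nonneg fun _ _ => by positivity
          unfold PP
          linarith
  have h4 := hC (Jn θ N) (by unfold Jn; omega)
  have hxθ : 1 ≤ x ^ θ := Real.one_le_rpow hx1 hθ.le
  have h5 : ((Jn θ N : ℕ) : ℝ) + 1 ≤ x ^ (θ + 1) := by
    have h6 : ((Jn θ N : ℕ) : ℝ) ≤ x ^ θ + 1 := by
      unfold Jn
      push_cast
      have := Nat.floor_le (show 0 ≤ x ^ θ by linarith)
      linarith
    rw [Real.rpow_add (by linarith), Real.rpow_one]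
    nlinarith
  have h6 : Real.log (((Jn θ N : ℕ) : ℝ) + 1) ≤ (θ + 1) * Real.log x := by
    rw [← Real.log_rpow (by linarith)]
    exact Real.log_le_log (by positivity) h5
  have h7 : Real.log (Real.log (((Jn θ N : ℕ) : ℝ) + 1))
      ≤ Real.log (θ + 1) + Real.log (Real.log x) := by
    rw [← Real.log_mul (by linarith) (by linarith)]
    apply Real.log_le_log _ h6
    apply Real.log_pos
    have : (1:ℝ) ≤ ((Jn θ N : ℕ) : ℝ) := by unfold Jn; push_cast; linarith [Nat.cast_nonneg (α := ℝ) ⌊(Real.log (N:ℝ)) ^ θ⌋₊]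
    linarith
  nlinarith

end Pool.Agent.Helper46_MNO
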