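import Pool.Agent.Helper46_MNO.Tails

set_option autoImplicit false

/-!
The second moment argument: almost every `k` has a shift `i < J` such that `k + 1 + i` has many
prime factors from `P`.
-/

namespace Pool.Agent.Helper46_MNO

open Finset Real

/-- The window for the number of prime factors. -/
def Win (P : Finset ℕ) (t e : ℝ) (m : ℕ) : Prop :=
  (t + 1 - e) * PP P ≤ ((Fp P m).card : ℝ) ∧ ((Fp P m).card : ℝ) ≤ (t + 1 + e) * PP P

open Classical in
/-- The weight restricted to the window. -/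
noncomputable def aw (P : Finset ℕ) (R : ℕ) (t e : ℝ) (m : ℕ) : ℝ :=
  if Win P t e m then Wt P R t m else 0

lemma aw_nonneg (P : Finset ℕ) (R : ℕ) {t : ℝ} (ht : 0 ≤ t) (e : ℝ) (m : ℕ) :
    0 ≤ aw P R t e m := by
  unfold aw
  split_ifs
  · exact Wt_nonneg P R ht m
  · exact le_refl _

lemma aw_le (P : Finset ℕ) (R : ℕ) {t : ℝ} (ht : 0 ≤ t) (e : ℝ) (m : ℕ) :
    aw P R t e m ≤ Wt P R t m := by
  unfold aw
  split_ifs
  · exact le_refl _
  · exact Wt_nonneg P R ht m

lemma aw_sq_le {P : Finset ℕ} (hP : ∀ p ∈ P, p.Prime) (R : ℕ) {t : ℝ} (ht : 0 ≤ t) (e : ℝ)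
    (m : ℕ) :
    aw P R t e m ^ 2 ≤ (t + 1) ^ ((t + 1 + e) * PP P) * Wt P R t m := by
  have h0 := Wt_nonneg P R ht m
  unfold aw
  split_ifs with h
  · have h1 : Wt P R t m ≤ (t + 1) ^ ((t + 1 + e) * PP P) := by
      refine (Wt_le hP R ht m).trans ?_
      rw [← Real.rpow_natCast]
      exact Real.rpow_le_rpow_of_exponent_le (by linarith) h.2
    rw [sq]
    exact mul_le_mul_of_nonneg_right h1 h0
  · have : (0:ℝ) ≤ (t + 1) ^ ((t + 1 + e) * PP P) := Real.rpow_nonneg (by linarith) _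
    simp only [ne_eq, OfNat.ofNat_ne_zero, not_false_eq_true, zero_pow]
    positivity

open Classical in
lemma first_aw {P : Finset ℕ} (hP : ∀ p ∈ P, p.Prime) (R : ℕ) {t e : ℝ} (ht : 1 ≤ t)
    (he : 0 < e) (i N : ℕ) :
    N * SS P R t - EE P R t
      - 2 * (((N : ℝ) + i) * Real.exp ((t - e ^ 2 / (8 * (t + 1 + e))) * PP P))
      ≤ ∑ k ∈ range N, aw P R t e (k + (1 + i)) := by
  have h1 := (abs_le.mp (first_bounds hP R (by linarith : 0 ≤ t) (1 + i) N)).1
  have h2 := tails_le hP ht he i N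
  have h3 : ∑ k ∈ range N, Wt P R t (k + (1 + i))
      ≤ ∑ k ∈ range N, aw P R t e (k + (1 + i))
        + ∑ k ∈ range N, (if ¬ ((t + 1 - e) * PP P ≤ ((Fp P (k + (1 + i))).card : ℝ) ∧
        ((Fp P (k + (1 + i))).card : ℝ) ≤ (t + 1 + e) * PP P)
        then (t + 1) ^ (Fp P (k + (1 + i))).card else 0) := by
    rw [← sum_add_distrib]
    apply sum_le_sum
    intro k _
    unfold aw
    by_cases h : Win P t e (k + (1 + i))
    · rw [if_pos h, if_neg (by unfold Win at h; exact not_not.mpr h)]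
      simp
    · rw [if_neg h, if_pos (by unfold Win at h; exact h), zero_add]
      exact Wt_le hP R (by linarith) _
  linarith

/-- The sum over the shifts. -/
noncomputable def NN (P : Finset ℕ) (R : ℕ) (t e : ℝ) (J k : ℕ) : ℝ :=
  ∑ i ∈ range J, aw P R t e (k + (1 + i))

lemma second_NN {P : Finset ℕ} (hP : ∀ p ∈ P, p.Prime) {J : ℕ} (hJ : ∀ p ∈ P, J ≤ p)
    (R : ℕ) {t : ℝ} (ht : 0 ≤ t) (e : ℝ) (N : ℕ) :
    ∑ k ∈ range N, NN P R t e J k ^ 2
      ≤ J * ((t + 1) ^ ((t + 1 + e) * PP P) * (N * SS P R t + EE P R t))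
        + J ^ 2 * (N * SS P R t ^ 2 + EE P R t ^ 2) := by
  have h1 : ∑ k ∈ range N, NN P R t e J k ^ 2
      = ∑ i ∈ range J, ∑ i' ∈ range J,
        ∑ k ∈ range N, aw P R t e (k + (1 + i)) * aw P R t e (k + (1 + i')) := by
    unfold NN
    simp_rw [sq, sum_mul_sum]
    rw [sum_comm]
    refine sum_congr rfl fun i _ => ?_
    rw [sum_comm]
  rw [h1]
  set B : ℝ := (t + 1) ^ ((t + 1 + e) * PP P) * (N * SS P R t + EE P R t) with hB
  set G : ℝ := N * SS P R t ^ 2 + EE P R t ^ 2 with hG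
  have hG0 : 0 ≤ G := by positivity
  have hB0 : 0 ≤ B := by
    have hSS : 0 ≤ SS P R t := sum_nonneg fun D _ => by positivity
    have hEE : 0 ≤ EE P R t := sum_nonneg fun D _ => by positivity
    have : (0:ℝ) ≤ (t + 1) ^ ((t + 1 + e) * PP P) := Real.rpow_nonneg (by linarith) _
    positivity
  have h2 : ∀ i ∈ range J, ∑ i' ∈ range J,
        ∑ k ∈ range N, aw P R t e (k + (1 + i)) * aw P R t e (k + (1 + i')) ≤ B + J * G := by
    intro i hi
    have h3 : ∀ i' ∈ range J,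
        ∑ k ∈ range N, aw P R t e (k + (1 + i)) * aw P R t e (k + (1 + i'))
        ≤ (if i' = i then B else 0) + G := by
      intro i' hi'
      by_cases hii : i' = i
      · rw [if_pos hii, hii]
        have h4 : ∑ k ∈ range N, aw P R t e (k + (1 + i)) * aw P R t e (k + (1 + i))
            ≤ ∑ k ∈ range N, (t + 1) ^ ((t + 1 + e) * PP P) * Wt P R t (k + (1 + i)) := by
          apply sum_le_sum
          intro k _
          have := aw_sq_le hP R ht e (k + (1 + i))
          rwa [sq] at this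
        rw [← mul_sum] at h4
        have h5 := (abs_le.mp (first_bounds hP R ht (1 + i) N)).2
        have h6 : (0:ℝ) ≤ (t + 1) ^ ((t + 1 + e) * PP P) := Real.rpow_nonneg (by linarith) _
        have h7 : (t + 1) ^ ((t + 1 + e) * PP P) * ∑ k ∈ range N, Wt P R t (k + (1 + i)) ≤ B := by
          rw [hB]
          exact mul_le_mul_of_nonneg_left (by linarith) h6
        linarith
      · rw [if_neg hii, zero_add]
        have h4 : ∑ k ∈ range N, aw P R t e (k + (1 + i)) * aw P R t e (k + (1 + i'))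
            ≤ ∑ k ∈ range N, Wt P R t (k + (1 + i)) * Wt P R t (k + (1 + i')) := by
          apply sum_le_sum
          intro k _
          exact mul_le_mul (aw_le P R ht e _) (aw_le P R ht e _) (aw_nonneg P R ht e _)
            (Wt_nonneg P R ht _)
        have h5 := pair_bound hP hJ R ht (mem_range.mp hi) (mem_range.mp hi') (Ne.symm hii) 1 N
        linarith
    refine (sum_le_sum h3).trans ?_
    rw [sum_add_distrib, sum_const, card_range, nsmul_eq_mul, sum_ite_eq' (range J) i (fun _ => B),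
      if_pos hi]
  refine (sum_le_sum h2).trans ?_
  rw [sum_const, card_range, nsmul_eq_mul]
  have : (J:ℝ) * (B + J * G) = J * B + J ^ 2 * G := by ring
  linarith

/-- The number of `k` all of whose shifts have few prime factors. -/
theorem bad_le {P : Finset ℕ} (hP : ∀ p ∈ P, p.Prime) {J : ℕ} (hJ : ∀ p ∈ P, J ≤ p)
    (R : ℕ) {t e η : ℝ} (ht : 1 ≤ t) (he : 0 < e) (hη : 0 < η) (hη2 : η ≤ 1 / 6) {N : ℕ}
    (hN : 0 < N) (hJ0 : 0 < J) (hS : 0 < SS P R t)
    (h1 : EE P R t ≤ η * (N * SS P R t))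
    (h2 : 2 * (((N : ℝ) + J) * Real.exp ((t - e ^ 2 / (8 * (t + 1 + e))) * PP P))
      ≤ η * (N * SS P R t))
    (h3 : (t + 1) ^ ((t + 1 + e) * PP P) ≤ η * (J * SS P R t))
    (h4 : EE P R t ^ 2 ≤ η * (N * SS P R t ^ 2)) :
    ((#{k ∈ range N | ∀ i < J, ((Fp P (k + (1 + i))).card : ℝ) < (t + 1 - e) * PP P} : ℕ) : ℝ)
      ≤ 6 * η * N := by
  classical
  set S := SS P R t with hSd
  have hN' : (0:ℝ) < N := by exact_mod_cast hN
  have hJ' : (0:ℝ) < J := by exact_mod_cast hJ0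
  -- first moment
  have hfirst : (J : ℝ) * (N * S * (1 - 2 * η)) ≤ ∑ k ∈ range N, NN P R t e J k := by
    unfold NN
    rw [sum_comm]
    have h5 : ∀ i ∈ range J, N * S * (1 - 2 * η) ≤ ∑ k ∈ range N, aw P R t e (k + (1 + i)) := by
      intro i hi
      have h6 := first_aw hP R ht he i N
      have hi' : (i:ℝ) ≤ J := by exact_mod_cast (mem_range.mp hi).le
      have h7 : 2 * (((N : ℝ) + i) * Real.exp ((t - e ^ 2 / (8 * (t + 1 + e))) * PP P))
          ≤ 2 * (((N : ℝ) + J) * Real.exp ((t - e ^ 2 / (8 * (t + 1 + e))) * PP P)) := by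
        gcongr
      nlinarith
    calc (J : ℝ) * (N * S * (1 - 2 * η)) = ∑ i ∈ range J, N * S * (1 - 2 * η) := by
          rw [sum_const, card_range, nsmul_eq_mul]
      _ ≤ _ := sum_le_sum h5
  -- second moment
  have hsecond : ∑ k ∈ range N, NN P R t e J k ^ 2 ≤ (J:ℝ) ^ 2 * (N * S ^ 2) * (1 + η) ^ 2 := by
    refine (second_NN hP hJ R (by linarith) e N).trans ?_
    have h5 : (t + 1) ^ ((t + 1 + e) * PP P) * (N * S + EE P R t)
        ≤ (η * (J * S)) * (N * S * (1 + η)) := by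
      apply mul_le_mul h3 (by nlinarith)
      · have : 0 ≤ EE P R t := sum_nonneg fun D _ => by positivity
        positivity
      · positivity
    have h6 : (J:ℝ) * ((t + 1) ^ ((t + 1 + e) * PP P) * (N * S + EE P R t))
        ≤ J * ((η * (J * S)) * (N * S * (1 + η))) := mul_le_mul_of_nonneg_left h5 hJ'.le
    have h7 : (J:ℝ) ^ 2 * (N * S ^ 2 + EE P R t ^ 2) ≤ J ^ 2 * (N * S ^ 2 + η * (N * S ^ 2)) := by
      gcongr
    calc _ ≤ (J:ℝ) * ((η * (J * S)) * (N * S * (1 + η)))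
          + J ^ 2 * (N * S ^ 2 + η * (N * S ^ 2)) := add_le_add h6 h7
      _ = _ := by ring
  -- Cauchy-Schwarz
  set good := {k ∈ range N | NN P R t e J k ≠ 0} with hgood
  have hcs : (∑ k ∈ range N, NN P R t e J k) ^ 2
      ≤ (good.card : ℝ) * ∑ k ∈ range N, NN P R t e J k ^ 2 := by
    have e1 : ∑ k ∈ range N, NN P R t e J k = ∑ k ∈ good, NN P R t e J k := by
      rw [hgood, sum_filter_ne_zero]
    rw [e1]
    refine (sq_sum_le_card_mul_sum_sq).trans ?_
    apply mul_le_mul_of_nonneg_left _ (Nat.cast_nonneg _)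
    exact sum_le_sum_of_subset_of_nonneg (filter_subset _ _) (fun _ _ _ => sq_nonneg _)
  have hfirst0 : 0 ≤ (J : ℝ) * (N * S * (1 - 2 * η)) := by
    have : 0 ≤ 1 - 2 * η := by linarith
    positivity
  have h8 : ((J : ℝ) * (N * S * (1 - 2 * η))) ^ 2
      ≤ (good.card : ℝ) * ((J:ℝ) ^ 2 * (N * S ^ 2) * (1 + η) ^ 2) :=
    (pow_le_pow_left₀ hfirst0 hfirst 2).trans
      (hcs.trans (mul_le_mul_of_nonneg_left hsecond (Nat.cast_nonneg _)))
  have h9 : (N:ℝ) * (1 - 6 * η) ≤ good.card := by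
    have hX : (0:ℝ) < (J:ℝ) ^ 2 * (N * S ^ 2) * (1 + η) ^ 2 := by positivity
    have h10 : (N:ℝ) * (1 - 6 * η) * ((J:ℝ) ^ 2 * (N * S ^ 2) * (1 + η) ^ 2)
        ≤ ((J : ℝ) * (N * S * (1 - 2 * η))) ^ 2 := by
      have e2 : ((J : ℝ) * (N * S * (1 - 2 * η))) ^ 2
          - (N:ℝ) * (1 - 6 * η) * ((J:ℝ) ^ 2 * (N * S ^ 2) * (1 + η) ^ 2)
          = ((J:ℝ) * N * S) ^ 2 * (η ^ 2 * (15 + 6 * η)) := by ring
      have : 0 ≤ ((J:ℝ) * N * S) ^ 2 * (η ^ 2 * (15 + 6 * η)) := by positivity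
      linarith
    exact le_of_mul_le_mul_right (h10.trans h8) hX
  -- bad set is in the complement
  have h11 : {k ∈ range N | ∀ i < J, ((Fp P (k + (1 + i))).card : ℝ) < (t + 1 - e) * PP P}
      ⊆ range N \ good := by
    intro k hk
    rw [mem_filter] at hk
    rw [mem_sdiff, hgood, mem_filter]
    refine ⟨hk.1, fun h => h.2 ?_⟩
    unfold NN
    apply sum_eq_zero
    intro i hi
    unfold aw
    rw [if_neg]
    intro hw
    have := hk.2 i (mem_range.mp hi)
    unfold Win at hw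
    linarith [hw.1]
  have h12 := card_le_card h11
  rw [card_sdiff_of_subset (filter_subset _ _), card_range] at h12
  have h13 : good.card ≤ N := by
    have := card_le_card (filter_subset (fun k => NN P R t e J k ≠ 0) (range N))
    rwa [card_range] at this
  have h14 : ((#{k ∈ range N | ∀ i < J, ((Fp P (k + (1 + i))).card : ℝ) < (t + 1 - e) * PP P}
      : ℕ) : ℝ) ≤ (N:ℝ) - good.card := by
    have h15 : ((#{k ∈ range N | ∀ i < J, ((Fp P (k + (1 + i))).card : ℝ) < (t + 1 - e) * PP P}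
      : ℕ) : ℝ) ≤ ((N - good.card : ℕ) : ℝ) := by exact_mod_cast h12
    rwa [Nat.cast_sub h13] at h15
  linarith

end Pool.Agent.Helper46_MNO
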