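import Pool.Agent.Helper46_MNO.Wt

set_option autoImplicit false

/-!
Exponential moments of the number of prime factors from a finite set of primes, the tails of
the weight, and the second moment of the truncated sum over the shifts.
-/

namespace Pool.Agent.Helper46_MNO

open Finset Real

/-- Sum of the reciprocals. -/
noncomputable def PP (P : Finset ℕ) : ℝ := ∑ p ∈ P, (1 : ℝ) / p

lemma prod_one_add_le (P : Finset ℕ) {s : ℝ} (hs : 0 ≤ s) :
    ∏ p ∈ P, (1 + s / p) ≤ Real.exp (s * PP P) := by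
  have h1 : s * PP P = ∑ p ∈ P, s / p := by
    unfold PP
    rw [mul_sum]
    exact sum_congr rfl fun p _ => by ring
  rw [h1, Real.exp_sum]
  apply prod_le_prod
  · intro p _; positivity
  · intro p _
    have := Real.add_one_le_exp (s / p)
    linarith

lemma sum_powerset_div (P : Finset ℕ) (s : ℝ) :
    ∑ D ∈ P.powerset, s ^ D.card / ((∏ p ∈ D, p : ℕ) : ℝ) = ∏ p ∈ P, (1 + s / p) := by
  rw [Finset.prod_one_add]
  refine sum_congr rfl fun D _ => ?_
  rw [prod_div_distrib, prod_const]
  push_cast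
  rfl

lemma sum_pow_card_le {P : Finset ℕ} (hP : ∀ p ∈ P, p.Prime) {u : ℝ} (hu : 1 ≤ u) (N : ℕ) :
    ∑ k ∈ range N, u ^ (Fp P (k + 1)).card ≤ N * Real.exp ((u - 1) * PP P) := by
  have h0 : ∀ m : ℕ, u ^ (Fp P m).card
      = ∑ D ∈ P.powerset, if (∏ p ∈ D, p) ∣ m then (u - 1) ^ D.card else 0 := by
    intro m
    have h2 := Finset.sum_pow_mul_eq_add_pow (u - 1) 1 (Fp P m)
    simp only [one_pow, mul_one, sub_add_cancel] at h2
    rw [← h2, ← sum_filter]
    apply sum_congr _ (fun _ _ => rfl)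
    ext D
    simp only [mem_powerset, mem_filter]
    constructor
    · intro h
      have h3 : D ⊆ P := h.trans (filter_subset _ _)
      exact ⟨h3, (prod_dvd_iff hP h3 m).mpr h⟩
    · rintro ⟨h3, h4⟩
      exact (prod_dvd_iff hP h3 m).mp h4
  simp_rw [h0]
  rw [sum_comm]
  have h1 : ∀ D ∈ P.powerset, ∑ k ∈ range N, (if (∏ p ∈ D, p) ∣ k + 1 then (u - 1) ^ D.card else 0)
      ≤ N * ((u - 1) ^ D.card / ((∏ p ∈ D, p : ℕ) : ℝ)) := by
    intro D hD
    rw [mem_powerset] at hD
    rw [sum_ite_const, Nat.card_multiples]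
    have h2 : ((N / (∏ p ∈ D, p) : ℕ) : ℝ) ≤ (N : ℝ) / ((∏ p ∈ D, p : ℕ) : ℝ) := Nat.cast_div_le
    have h3 : (0:ℝ) ≤ (u - 1) ^ D.card := pow_nonneg (by linarith) _
    calc ((N / (∏ p ∈ D, p) : ℕ) : ℝ) * (u - 1) ^ D.card
        ≤ (N : ℝ) / ((∏ p ∈ D, p : ℕ) : ℝ) * (u - 1) ^ D.card :=
          mul_le_mul_of_nonneg_right h2 h3
      _ = _ := by ring
  refine (sum_le_sum h1).trans ?_
  rw [← mul_sum, sum_powerset_div]
  exact mul_le_mul_of_nonneg_left (prod_one_add_le P (by linarith)) (Nat.cast_nonneg _)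

lemma sum_pow_card_shift_le {P : Finset ℕ} (hP : ∀ p ∈ P, p.Prime) {u : ℝ} (hu : 1 ≤ u)
    (i N : ℕ) :
    ∑ k ∈ range N, u ^ (Fp P (k + (1 + i))).card
      ≤ ((N : ℝ) + i) * Real.exp ((u - 1) * PP P) := by
  have h1 := sum_pow_card_le hP hu (i + N)
  rw [sum_range_add] at h1
  have h2 : 0 ≤ ∑ k ∈ range i, u ^ (Fp P (k + 1)).card :=
    sum_nonneg fun k _ => pow_nonneg (by linarith) _
  have h3 : ∑ k ∈ range N, u ^ (Fp P (i + k + 1)).card
      = ∑ k ∈ range N, u ^ (Fp P (k + (1 + i))).card :=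
    sum_congr rfl fun k _ => by
      have e : i + k + 1 = k + (1 + i) := by ring
      rw [e]
  rw [h3] at h1
  push_cast at h1
  have h4 : ((i : ℝ) + N) * Real.exp ((u - 1) * PP P)
      = ((N : ℝ) + i) * Real.exp ((u - 1) * PP P) := by ring
  linarith

lemma tail {P : Finset ℕ} (hP : ∀ p ∈ P, p.Prime) {u y x : ℝ} (hu0 : 0 ≤ u) (hy : 0 < y)
    (hu : 1 ≤ u * y) (B : ℕ → Prop) [DecidablePred B]
    (hB : ∀ m, B m → 1 ≤ y ^ (((Fp P m).card : ℝ) - x)) (i N : ℕ) :
    ∑ k ∈ range N, (if B (k + (1 + i)) then u ^ (Fp P (k + (1 + i))).card else 0)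
      ≤ y ^ (-x) * (((N : ℝ) + i) * Real.exp ((u * y - 1) * PP P)) := by
  have h1 : ∀ m : ℕ, (if B m then u ^ (Fp P m).card else 0)
      ≤ y ^ (-x) * (u * y) ^ (Fp P m).card := by
    intro m
    have h2 : y ^ (-x) * (u * y) ^ (Fp P m).card
        = u ^ (Fp P m).card * y ^ (((Fp P m).card : ℝ) - x) := by
      rw [Real.rpow_sub hy, Real.rpow_natCast, Real.rpow_neg hy.le, mul_pow]
      ring
    rw [h2]
    split_ifs with h
    · have := hB m h
      have h3 : (0:ℝ) ≤ u ^ (Fp P m).card := pow_nonneg hu0 _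
      nlinarith
    · have h3 : (0:ℝ) ≤ u ^ (Fp P m).card := pow_nonneg hu0 _
      have h4 : (0:ℝ) ≤ y ^ (((Fp P m).card : ℝ) - x) := Real.rpow_nonneg hy.le _
      positivity
  calc ∑ k ∈ range N, (if B (k + (1 + i)) then u ^ (Fp P (k + (1 + i))).card else 0)
      ≤ ∑ k ∈ range N, y ^ (-x) * (u * y) ^ (Fp P (k + (1 + i))).card :=
        sum_le_sum fun k _ => h1 _
    _ = y ^ (-x) * ∑ k ∈ range N, (u * y) ^ (Fp P (k + (1 + i))).card := by rw [mul_sum]
    _ ≤ _ := by
        apply mul_le_mul_of_nonneg_left _ (Real.rpow_nonneg hy.le _)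
        exact sum_pow_card_shift_le hP hu i N

/-- Both tails of the number of prime factors in the tilted measure. -/
lemma tails_le {P : Finset ℕ} (hP : ∀ p ∈ P, p.Prime) {t e : ℝ} (ht : 1 ≤ t) (he : 0 < e)
    (i N : ℕ) :
    ∑ k ∈ range N, (if ¬ ((t + 1 - e) * PP P ≤ ((Fp P (k + (1 + i))).card : ℝ) ∧
        ((Fp P (k + (1 + i))).card : ℝ) ≤ (t + 1 + e) * PP P)
        then (t + 1) ^ (Fp P (k + (1 + i))).card else 0)
      ≤ 2 * (((N : ℝ) + i) * Real.exp ((t - e ^ 2 / (8 * (t + 1 + e))) * PP P)) := by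
  have hPP : 0 ≤ PP P := sum_nonneg fun p _ => by positivity
  set v : ℝ := t + 1 with hv
  set η : ℝ := e / (4 * (v + e)) with hη
  have hv2 : 2 ≤ v := by linarith
  have hη0 : 0 < η := by positivity
  have hη1 : η ≤ 1 / 2 := by
    rw [hη, div_le_iff₀ (by positivity)]
    nlinarith
  have hηe : η * (4 * (v + e)) = e := by rw [hη]; field_simp
  have hκ : e ^ 2 / (8 * (v + e)) = η * e / 2 := by
    rw [hη]; field_simp; ring
  have hκ2 : (v + e) * η ^ 2 = η * e / 4 := by
    have : η * e = η * (η * (4 * (v + e))) := by rw [hηe]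
    linarith
  -- upper tail
  have hU : ∑ k ∈ range N, (if (v + e) * PP P < ((Fp P (k + (1 + i))).card : ℝ)
        then v ^ (Fp P (k + (1 + i))).card else 0)
      ≤ ((N : ℝ) + i) * Real.exp ((t - e ^ 2 / (8 * (v + e))) * PP P) := by
    have h1 := tail hP (u := v) (y := 1 + η) (x := (v + e) * PP P) (by linarith) (by linarith)
      (by nlinarith) (fun m => (v + e) * PP P < ((Fp P m).card : ℝ))
      (fun m hm => Real.one_le_rpow (by linarith) (by linarith)) i N
    refine h1.trans ?_
    have h2 : (1 + η) ^ (-((v + e) * PP P)) = Real.exp (-((v + e) * PP P) * Real.log (1 + η)) := by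
      rw [Real.rpow_def_of_pos (by linarith)]
      ring_nf
    have h3 : η - η ^ 2 ≤ Real.log (1 + η) := by
      have h4 := Real.one_sub_inv_le_log_of_pos (show 0 < 1 + η by linarith)
      have h5 : 1 - (1 + η)⁻¹ = η / (1 + η) := by field_simp; ring
      have h6 : η - η ^ 2 ≤ η / (1 + η) := by
        rw [le_div_iff₀ (by linarith)]
        nlinarith [pow_pos hη0 3]
      linarith
    rw [h2]
    calc Real.exp (-((v + e) * PP P) * Real.log (1 + η))
          * (((N : ℝ) + i) * Real.exp ((v * (1 + η) - 1) * PP P))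
        = ((N : ℝ) + i) * Real.exp (-((v + e) * PP P) * Real.log (1 + η)
            + (v * (1 + η) - 1) * PP P) := by rw [Real.exp_add]; ring
      _ ≤ _ := by
        apply mul_le_mul_of_nonneg_left _ (by positivity)
        apply Real.exp_le_exp.mpr
        rw [hκ]
        have h7 : (v + e) * (η - η ^ 2) ≤ (v + e) * Real.log (1 + η) :=
          mul_le_mul_of_nonneg_left h3 (by linarith)
        have h8 : -(v + e) * Real.log (1 + η) + (v * (1 + η) - 1) ≤ t - η * e / 2 := by
          nlinarith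
        nlinarith
  -- lower tail
  have hL : ∑ k ∈ range N, (if ((Fp P (k + (1 + i))).card : ℝ) < (v - e) * PP P
        then v ^ (Fp P (k + (1 + i))).card else 0)
      ≤ ((N : ℝ) + i) * Real.exp ((t - e ^ 2 / (8 * (v + e))) * PP P) := by
    by_cases hve : v - e ≤ 0
    · have h0 : ∑ k ∈ range N, (if ((Fp P (k + (1 + i))).card : ℝ) < (v - e) * PP P
        then v ^ (Fp P (k + (1 + i))).card else 0) = 0 := by
        apply sum_eq_zero
        intro k _
        rw [if_neg]
        push Not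
        have : (v - e) * PP P ≤ 0 := mul_nonpos_of_nonpos_of_nonneg hve hPP
        have h2 : (0:ℝ) ≤ ((Fp P (k + (1 + i))).card : ℝ) := Nat.cast_nonneg _
        linarith
      rw [h0]
      positivity
    push Not at hve
    have h1 := tail hP (u := v) (y := 1 - η) (x := (v - e) * PP P) (by linarith) (by linarith)
      (by nlinarith) (fun m => ((Fp P m).card : ℝ) < (v - e) * PP P)
      (fun m hm => Real.one_le_rpow_of_pos_of_le_one_of_nonpos (by linarith) (by linarith)
        (by linarith)) i N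
    refine h1.trans ?_
    have h2 : (1 - η) ^ (-((v - e) * PP P)) = Real.exp (-((v - e) * PP P) * Real.log (1 - η)) := by
      rw [Real.rpow_def_of_pos (by linarith)]
      ring_nf
    have h3 : -(η + 2 * η ^ 2) ≤ Real.log (1 - η) := by
      have h4 := Real.one_sub_inv_le_log_of_pos (show 0 < 1 - η by linarith)
      have h5 : 1 - (1 - η)⁻¹ = -(η / (1 - η)) := by
        have : (1 - η) ≠ 0 := by linarith
        field_simp; ring
      have h6 : η / (1 - η) ≤ η + 2 * η ^ 2 := by
        rw [div_le_iff₀ (by linarith)]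
        nlinarith [pow_pos hη0 3, pow_pos hη0 2]
      linarith
    rw [h2]
    calc Real.exp (-((v - e) * PP P) * Real.log (1 - η))
          * (((N : ℝ) + i) * Real.exp ((v * (1 - η) - 1) * PP P))
        = ((N : ℝ) + i) * Real.exp (-((v - e) * PP P) * Real.log (1 - η)
            + (v * (1 - η) - 1) * PP P) := by rw [Real.exp_add]; ring
      _ ≤ _ := by
        apply mul_le_mul_of_nonneg_left _ (by positivity)
        apply Real.exp_le_exp.mpr
        rw [hκ]
        have h7 : (v - e) * (-(η + 2 * η ^ 2)) ≤ (v - e) * Real.log (1 - η) :=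
          mul_le_mul_of_nonneg_left h3 hve.le
        have h8 : -(v - e) * Real.log (1 - η) + (v * (1 - η) - 1) ≤ t - η * e / 2 := by
          nlinarith [mul_pos he (pow_pos hη0 2)]
        nlinarith
  have hsplit : ∀ k, (if ¬ ((v - e) * PP P ≤ ((Fp P (k + (1 + i))).card : ℝ) ∧
        ((Fp P (k + (1 + i))).card : ℝ) ≤ (v + e) * PP P)
        then v ^ (Fp P (k + (1 + i))).card else 0)
      ≤ (if (v + e) * PP P < ((Fp P (k + (1 + i))).card : ℝ)
        then v ^ (Fp P (k + (1 + i))).card else 0)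
        + (if ((Fp P (k + (1 + i))).card : ℝ) < (v - e) * PP P
        then v ^ (Fp P (k + (1 + i))).card else 0) := by
    intro k
    have h3 : (0:ℝ) ≤ v ^ (Fp P (k + (1 + i))).card := pow_nonneg (by linarith) _
    by_cases h4 : (v - e) * PP P ≤ ((Fp P (k + (1 + i))).card : ℝ)
    · by_cases h5 : ((Fp P (k + (1 + i))).card : ℝ) ≤ (v + e) * PP P
      · rw [if_neg (by simp [h4, h5])]
        have : (0:ℝ) ≤ (if (v + e) * PP P < ((Fp P (k + (1 + i))).card : ℝ)
          then v ^ (Fp P (k + (1 + i))).card else 0) := by split_ifs <;> positivity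
        have h6 : (0:ℝ) ≤ (if ((Fp P (k + (1 + i))).card : ℝ) < (v - e) * PP P
          then v ^ (Fp P (k + (1 + i))).card else 0) := by split_ifs <;> positivity
        linarith
      · rw [if_pos (by simp [h5]), if_pos (by linarith), if_neg (by linarith)]
        linarith
    · rw [if_pos (by simp [h4])]
      have : (0:ℝ) ≤ (if (v + e) * PP P < ((Fp P (k + (1 + i))).card : ℝ)
          then v ^ (Fp P (k + (1 + i))).card else 0) := by split_ifs <;> positivity
      have h7 : ((Fp P (k + (1 + i))).card : ℝ) < (v - e) * PP P := by linarith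
      rw [if_pos h7]
      linarith
  calc _ ≤ ∑ k ∈ range N, ((if (v + e) * PP P < ((Fp P (k + (1 + i))).card : ℝ)
        then v ^ (Fp P (k + (1 + i))).card else 0)
        + (if ((Fp P (k + (1 + i))).card : ℝ) < (v - e) * PP P
        then v ^ (Fp P (k + (1 + i))).card else 0)) := sum_le_sum fun k _ => hsplit k
    _ ≤ _ := by
      rw [sum_add_distrib]
      linarith

end Pool.Agent.Helper46_MNO
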