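import Pool.Agent.Helper69_Weyl.Divisor
import Pool.Agent.Common_Mertens.Mertens

set_option autoImplicit false

/-!
Moments of the number of divisors: for real `κ > 0`,
`∑ m ≤ X, τ(m)^κ ≤ C X (log X)^(2^κ - 1)`.
-/

namespace Pool.Agent.Helper46_MNO

open Finset Real

/-- Power of the number of divisors. -/
noncomputable def tk (κ : ℝ) (m : ℕ) : ℝ := (m.divisors.card : ℝ) ^ κ

lemma tk_nonneg (κ : ℝ) (m : ℕ) : 0 ≤ tk κ m := Real.rpow_nonneg (Nat.cast_nonneg _) _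

lemma tk_zero {κ : ℝ} (hκ : 0 < κ) : tk κ 0 = 0 := by
  simp [tk, Real.zero_rpow hκ.ne']

lemma tk_one (κ : ℝ) : tk κ 1 = 1 := by simp [tk]

lemma tk_coprime (κ : ℝ) {m n : ℕ} (h : Nat.Coprime m n) : tk κ (m * n) = tk κ m * tk κ n := by
  unfold tk
  rw [Nat.Coprime.card_divisors_mul h]
  push_cast
  exact Real.mul_rpow (Nat.cast_nonneg _) (Nat.cast_nonneg _)

lemma tk_mul_le {κ : ℝ} (hκ : 0 < κ) (m n : ℕ) : tk κ (m * n) ≤ tk κ m * tk κ n := by
  unfold tk
  rw [← Real.mul_rpow (Nat.cast_nonneg _) (Nat.cast_nonneg _)]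
  apply Real.rpow_le_rpow (Nat.cast_nonneg _) _ hκ.le
  rw [Nat.divisors_mul]
  exact_mod_cast Finset.card_mul_le

lemma tk_prime_pow (κ : ℝ) {p : ℕ} (hp : p.Prime) (k : ℕ) : tk κ (p ^ k) = ((k : ℝ) + 1) ^ κ := by
  unfold tk
  rw [Nat.divisors_prime_pow hp, card_map, card_range]
  push_cast; rfl

lemma tk_prime (κ : ℝ) {p : ℕ} (hp : p.Prime) : tk κ p = 2 ^ κ := by
  have := tk_prime_pow κ hp 1
  rw [pow_one] at this
  rw [this]; norm_num

open scoped ArithmeticFunction ArithmeticFunction.vonMangoldt Chebyshev in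
/-- The weighted Chebyshev bound. -/
lemma sum_vonMangoldt_tk_le {κ : ℝ} (hκ : 0 < κ) : ∃ C : ℝ, 0 ≤ C ∧ ∀ Y : ℕ,
    ∑ d ∈ Ioc 0 Y, ArithmeticFunction.vonMangoldt d * tk κ d ≤ C * Y := by
  obtain ⟨B, hB1, hB⟩ := Pool.Agent.Helper69_Weyl.exists_card_divisors_le (1 / (2 * κ))
    (by positivity)
  obtain ⟨A, hA⟩ := Chebyshev.psi_sub_theta_le_mul_sqrt
  refine ⟨2 ^ κ * Real.log 4 + B ^ κ * |A|, by positivity, fun Y => ?_⟩
  rw [← sum_filter_add_sum_filter_not (Ioc 0 Y) Nat.Prime]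
  have h1 : ∑ d ∈ Ioc 0 Y with Nat.Prime d, ArithmeticFunction.vonMangoldt d * tk κ d
      ≤ 2 ^ κ * Real.log 4 * Y := by
    have e : ∑ d ∈ Ioc 0 Y with Nat.Prime d, ArithmeticFunction.vonMangoldt d * tk κ d
        = 2 ^ κ * Chebyshev.theta (Y : ℝ) := by
      rw [Chebyshev.theta, Nat.floor_natCast, mul_sum]
      apply sum_congr rfl
      intro p hp
      rw [mem_filter] at hp
      rw [tk_prime κ hp.2, ArithmeticFunction.vonMangoldt_apply_prime hp.2]; ring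
    rw [e]
    have := Chebyshev.theta_le_log4_mul_x (x := (Y : ℝ)) (Nat.cast_nonneg _)
    calc (2 : ℝ) ^ κ * Chebyshev.theta (Y : ℝ) ≤ 2 ^ κ * (Real.log 4 * Y) := by gcongr
      _ = _ := by ring
  have h2 : ∑ d ∈ Ioc 0 Y with ¬ Nat.Prime d, ArithmeticFunction.vonMangoldt d * tk κ d
      ≤ B ^ κ * |A| * Y := by
    have h3 : ∑ d ∈ Ioc 0 Y with ¬ Nat.Prime d, ArithmeticFunction.vonMangoldt d * tk κ d
        ≤ ∑ d ∈ Ioc 0 Y with ¬ Nat.Prime d,
          ArithmeticFunction.vonMangoldt d * (B ^ κ * Real.sqrt Y) := by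
      apply sum_le_sum
      intro d hd
      rw [mem_filter, mem_Ioc] at hd
      have hd0 : d ≠ 0 := by omega
      have h4 := hB d hd0
      have h5 : tk κ d ≤ B ^ κ * Real.sqrt Y := by
        unfold tk
        calc ((d.divisors.card : ℕ) : ℝ) ^ κ ≤ (B * (d : ℝ) ^ (1 / (2 * κ))) ^ κ :=
              Real.rpow_le_rpow (Nat.cast_nonneg _) h4 hκ.le
          _ = B ^ κ * ((d : ℝ) ^ (1 / (2 * κ))) ^ κ :=
              Real.mul_rpow (by linarith) (by positivity)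
          _ = B ^ κ * Real.sqrt d := by
              rw [← Real.rpow_mul (Nat.cast_nonneg _), Real.sqrt_eq_rpow]
              congr 2; field_simp
          _ ≤ B ^ κ * Real.sqrt Y := by
              have : (d : ℝ) ≤ Y := by exact_mod_cast hd.1.2
              gcongr
      exact mul_le_mul_of_nonneg_left h5 ArithmeticFunction.vonMangoldt_nonneg
    have h6 : ∑ d ∈ Ioc 0 Y with ¬ Nat.Prime d,
          ArithmeticFunction.vonMangoldt d * (B ^ κ * Real.sqrt Y)
        = (Chebyshev.psi (Y : ℝ) - Chebyshev.theta (Y : ℝ)) * (B ^ κ * Real.sqrt Y) := by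
      rw [Chebyshev.psi_sub_theta_eq_sum_not_prime, Nat.floor_natCast, sum_mul]
    have h7 := hA (Y : ℝ)
    have h8 : Chebyshev.psi (Y : ℝ) - Chebyshev.theta (Y : ℝ) ≤ |A| * Real.sqrt Y :=
      h7.trans (mul_le_mul_of_nonneg_right (le_abs_self A) (Real.sqrt_nonneg _))
    calc _ ≤ _ := h3
      _ = _ := h6
      _ ≤ (|A| * Real.sqrt Y) * (B ^ κ * Real.sqrt Y) := by gcongr
      _ = B ^ κ * |A| * (Real.sqrt Y * Real.sqrt Y) := by ring
      _ = _ := by rw [Real.mul_self_sqrt (Nat.cast_nonneg _)]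
  calc _ ≤ 2 ^ κ * Real.log 4 * Y + B ^ κ * |A| * Y := add_le_add h1 h2
    _ = _ := by ring

/-- The logarithmic trick: `S(X) log X ≤ C X H(X)`. -/
lemma sum_tk_mul_log_le {κ : ℝ} (hκ : 0 < κ) : ∃ C : ℝ, 0 ≤ C ∧ ∀ X : ℕ,
    (∑ m ∈ Ioc 0 X, tk κ m) * Real.log X ≤ C * X * ∑ m ∈ Ioc 0 X, tk κ m / m := by
  obtain ⟨C, hC0, hC⟩ := sum_vonMangoldt_tk_le hκ
  refine ⟨C + 1, by linarith, fun X => ?_⟩
  let F : ArithmeticFunction ℝ := ⟨tk κ, tk_zero hκ⟩
  let G : ArithmeticFunction ℝ := ⟨fun m => ArithmeticFunction.vonMangoldt m * tk κ m,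
    by simp [tk_zero hκ]⟩
  have h1 : ∑ m ∈ Ioc 0 X, tk κ m * Real.log m ≤ C * X * ∑ m ∈ Ioc 0 X, tk κ m / m := by
    have e1 : ∀ m ∈ Ioc 0 X, tk κ m * Real.log m ≤ (F * G) m := by
      intro m hm
      rw [← ArithmeticFunction.vonMangoldt_sum, ArithmeticFunction.mul_apply, mul_sum,
        ← Nat.sum_divisorsAntidiagonal' (f := fun _ d => tk κ m * ArithmeticFunction.vonMangoldt d)]
      apply sum_le_sum
      rintro ⟨a, b⟩ hab
      rw [Nat.mem_divisorsAntidiagonal] at hab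
      show tk κ m * ArithmeticFunction.vonMangoldt b
        ≤ tk κ a * (ArithmeticFunction.vonMangoldt b * tk κ b)
      rw [← hab.1]
      have := tk_mul_le hκ a b
      calc tk κ (a * b) * ArithmeticFunction.vonMangoldt b
          ≤ (tk κ a * tk κ b) * ArithmeticFunction.vonMangoldt b :=
            mul_le_mul_of_nonneg_right this ArithmeticFunction.vonMangoldt_nonneg
        _ = _ := by ring
    calc ∑ m ∈ Ioc 0 X, tk κ m * Real.log m ≤ ∑ m ∈ Ioc 0 X, (F * G) m := sum_le_sum e1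
      _ = ∑ n ∈ Ioc 0 X, F n * ∑ m ∈ Ioc 0 (X / n), G m :=
          ArithmeticFunction.sum_Ioc_mul_eq_sum_sum F G X
      _ ≤ ∑ n ∈ Ioc 0 X, tk κ n * (C * (X / n)) := by
          apply sum_le_sum
          intro n hn
          apply mul_le_mul_of_nonneg_left _ (tk_nonneg κ n)
          calc ∑ m ∈ Ioc 0 (X / n), G m ≤ C * ((X / n : ℕ) : ℝ) := hC (X / n)
            _ ≤ C * ((X : ℝ) / n) := by
                apply mul_le_mul_of_nonneg_left _ hC0
                exact Nat.cast_div_le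
      _ = _ := by rw [mul_sum]; apply sum_congr rfl; intro n _; ring
  have h2 : ∑ m ∈ Ioc 0 X, tk κ m * (Real.log X - Real.log m)
      ≤ X * ∑ m ∈ Ioc 0 X, tk κ m / m := by
    rw [mul_sum]
    apply sum_le_sum
    intro m hm
    rw [mem_Ioc] at hm
    have hm0 : (0 : ℝ) < m := by exact_mod_cast hm.1
    have hX0 : (0 : ℝ) < X := by
      have : 0 < X := by omega
      exact_mod_cast this
    have h3 : Real.log X - Real.log m ≤ X / m := by
      rw [← Real.log_div hX0.ne' hm0.ne']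
      have := Real.log_le_sub_one_of_pos (div_pos hX0 hm0)
      linarith
    calc tk κ m * (Real.log X - Real.log m) ≤ tk κ m * (X / m) :=
          mul_le_mul_of_nonneg_left h3 (tk_nonneg κ m)
      _ = _ := by ring
  calc (∑ m ∈ Ioc 0 X, tk κ m) * Real.log X
      = ∑ m ∈ Ioc 0 X, tk κ m * Real.log m
        + ∑ m ∈ Ioc 0 X, tk κ m * (Real.log X - Real.log m) := by
        rw [← sum_add_distrib, sum_mul]; apply sum_congr rfl; intro m _; ring
    _ ≤ C * X * ∑ m ∈ Ioc 0 X, tk κ m / m + X * ∑ m ∈ Ioc 0 X, tk κ m / m := add_le_add h1 h2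
    _ = _ := by ring

end Pool.Agent.Helper46_MNO
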