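import Pool.Agent.Helper46_MNO.Harm
import Pool.Agent.Helper46_MNO.Low
import Pool.Agent.Helper46_MNO.Const

set_option autoImplicit false

/-!
The upper half of the normal order: for almost all `n` one has
`m + τ(m) ≤ n + (log n)^(c log 2 + ε)` for all `m < n`.
-/

namespace Pool.Agent.Helper46_MNO

open Finset Real Filter Topology

/-- `m + τ(m) ≤ n + (log n)^β` for all `m < n`. -/
def UpOK (β : ℝ) (n : ℕ) : Prop :=
  ∀ m : ℕ, 1 ≤ m → m < n → (m : ℝ) + (m.divisors.card : ℝ) ≤ n + (Real.log n) ^ β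

open Classical in
/-- The upper half. -/
theorem up_half {c ε : ℝ} (hc : 2 < c) (h : c * Real.log (2 * Real.exp 1 / c) = 1)
    (hε : 0 < ε) :
    ∃ ρ : ℝ, 0 < ρ ∧ ∀ᶠ X : ℕ in atTop,
      ((#{n ∈ Finset.Icc 1 X | ¬ UpOK (c * Real.log 2 + ε) n} : ℕ) : ℝ)
        ≤ (Real.log X) ^ (-ρ) * X := by
  have hlog2 : 0 < Real.log 2 := Real.log_pos (by norm_num)
  have hlogc : Real.log 2 < Real.log c := Real.log_lt_log (by norm_num) hc
  set κ : ℝ := Real.log c / Real.log 2 with hκ
  have hκ1 : 1 < κ := by rw [hκ, lt_div_iff₀ hlog2]; linarith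
  have h2κ : (2:ℝ) ^ κ = c := by
    rw [Real.rpow_def_of_pos (by norm_num), hκ, mul_div_cancel₀ _ hlog2.ne']
    exact Real.exp_log (by linarith)
  set α : ℝ := c * Real.log 2 with hα
  have hα0 : 0 < α := by positivity
  have hκα : (κ - 1) * α = c - 1 := by
    have hh1 : hh c = 1 := h
    rw [hh_eq (by linarith)] at hh1
    have e1 : κ * Real.log 2 = Real.log c := by rw [hκ]; field_simp
    have e2 : (κ - 1) * α = c * (κ * Real.log 2) - c * Real.log 2 := by rw [hα]; ring
    rw [e2, e1]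
    linarith
  obtain ⟨C, hC0, hC⟩ := sum_tk_le (κ := κ) (by linarith)
  set δ : ℝ := (κ - 1) * (ε / 2) with hδ
  have hδ0 : 0 < δ := by rw [hδ]; exact mul_pos (by linarith) (by linarith)
  refine ⟨δ / 2, by linarith, ?_⟩
  filter_upwards [tendsto_logN.eventually_ge_atTop 1, eventually_ge_atTop 2,
    tendsto_logN.eventually (ev_const_pow (b := ε / 2) (c := 1) (by linarith)
      ((2:ℝ) ^ (α + ε)) (by norm_num)),
    tendsto_logN.eventually (ev_const_pow (b := δ / 2) (c := 1) (by linarith) (2 * (C + 1))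
      (by norm_num)),
    tendsto_logN.eventually (ev_log_pow (b := 1) (c := 1 / (2 * δ)) (by norm_num)
      (by positivity))]
    with X h1 h2 h3 h4 h5
  set x := Real.log (X : ℝ) with hx
  have hXpos : (0:ℝ) < X := by exact_mod_cast (by omega : 0 < X)
  have hXx : (X:ℝ) = Real.exp x := (Real.exp_log hXpos).symm
  have hx0 : 0 < x := by linarith
  set T : ℝ := x ^ (α + ε / 2) with hT
  have hT1 : 1 ≤ T := Real.one_le_rpow h1 (by linarith)
  have hsub : {n ∈ Finset.Icc 1 X | ¬ UpOK (α + ε) n}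
      ⊆ Finset.Icc 1 ⌊Real.exp (x / 2)⌋₊ ∪
        ((Ioc 0 X).filter fun m : ℕ => T < (m.divisors.card : ℝ)).biUnion
          (fun m => Ioc m (m + m.divisors.card)) := by
    intro n hn
    rw [mem_filter, mem_Icc] at hn
    obtain ⟨⟨hn1, hnX⟩, hnb⟩ := hn
    rw [mem_union]
    by_cases hnJ : n ≤ ⌊Real.exp (x / 2)⌋₊
    · left; exact mem_Icc.mpr ⟨hn1, hnJ⟩
    right
    have hn2 : Real.exp (x / 2) < n := by
      rw [not_le] at hnJ
      exact (Nat.floor_lt (Real.exp_pos _).le).mp hnJ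
    have hlogn : x / 2 ≤ Real.log n := by
      rw [Real.le_log_iff_exp_le (by linarith [Real.exp_pos (x / 2)])]
      exact hn2.le
    have hTn : T ≤ (Real.log n) ^ (α + ε) := by
      have e1 : x ^ (α + ε) = x ^ (α + ε / 2) * x ^ (ε / 2) := by
        rw [← Real.rpow_add hx0]; ring_nf
      have e2 : T * (2:ℝ) ^ (α + ε) ≤ x ^ (α + ε) := by
        rw [e1]
        apply mul_le_mul_of_nonneg_left _ (by linarith)
        linarith
      have e3 : (x / 2) ^ (α + ε) = x ^ (α + ε) / (2:ℝ) ^ (α + ε) :=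
        Real.div_rpow hx0.le (by norm_num) _
      have e4 : (0:ℝ) < (2:ℝ) ^ (α + ε) := Real.rpow_pos_of_pos (by norm_num) _
      calc T ≤ x ^ (α + ε) / (2:ℝ) ^ (α + ε) := by rw [le_div_iff₀ e4]; exact e2
        _ = (x / 2) ^ (α + ε) := e3.symm
        _ ≤ _ := Real.rpow_le_rpow (by linarith) hlogn (by linarith)
    unfold UpOK at hnb
    push Not at hnb
    obtain ⟨m, hm1, hm2, hm3⟩ := hnb
    have hm2' : (m:ℝ) < n := by exact_mod_cast hm2
    rw [mem_biUnion]
    refine ⟨m, ?_, ?_⟩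
    · rw [mem_filter, mem_Ioc]
      refine ⟨⟨by omega, by omega⟩, ?_⟩
      linarith
    · rw [mem_Ioc]
      refine ⟨hm2, ?_⟩
      have e5 : (n:ℝ) ≤ ((m + m.divisors.card : ℕ) : ℝ) := by
        push_cast
        linarith
      exact_mod_cast e5
  have hcard := (card_le_card hsub).trans (card_union_le _ _)
  have hbi : ((((Ioc 0 X).filter fun m : ℕ => T < (m.divisors.card : ℝ)).biUnion
          (fun m => Ioc m (m + m.divisors.card))).card : ℝ)
      ≤ C * X * x ^ (-δ) := by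
    have e1 := card_biUnion_le (s := (Ioc 0 X).filter fun m : ℕ => T < (m.divisors.card : ℝ))
      (t := fun m => Ioc m (m + m.divisors.card))
    have e2 : ((((Ioc 0 X).filter fun m : ℕ => T < (m.divisors.card : ℝ)).biUnion
          (fun m => Ioc m (m + m.divisors.card))).card : ℝ)
        ≤ ∑ m ∈ (Ioc 0 X).filter fun m : ℕ => T < (m.divisors.card : ℝ),
          (m.divisors.card : ℝ) := by
      have e3 : ∀ m : ℕ, (Ioc m (m + m.divisors.card)).card = m.divisors.card := fun m => by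
        rw [Nat.card_Ioc]; omega
      simp_rw [e3] at e1
      exact_mod_cast e1
    have e4 : ∑ m ∈ (Ioc 0 X).filter fun m : ℕ => T < (m.divisors.card : ℝ),
          (m.divisors.card : ℝ)
        ≤ ∑ m ∈ Ioc 0 X, T ^ (1 - κ) * tk κ m := by
      have e5 : ∀ m ∈ (Ioc 0 X).filter fun m : ℕ => T < (m.divisors.card : ℝ),
          (m.divisors.card : ℝ) ≤ T ^ (1 - κ) * tk κ m := by
        intro m hm
        rw [mem_filter] at hm
        have hd : 0 < (m.divisors.card : ℝ) := by linarith [hm.2]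
        unfold tk
        have e6 : (m.divisors.card : ℝ)
            = (m.divisors.card : ℝ) ^ (1 - κ) * (m.divisors.card : ℝ) ^ κ := by
          rw [← Real.rpow_add hd]; simp
        have e7 : (m.divisors.card : ℝ) ^ (1 - κ) ≤ T ^ (1 - κ) :=
          Real.rpow_le_rpow_of_nonpos (by linarith) hm.2.le (by linarith)
        calc (m.divisors.card : ℝ)
            = (m.divisors.card : ℝ) ^ (1 - κ) * (m.divisors.card : ℝ) ^ κ := e6
          _ ≤ _ := mul_le_mul_of_nonneg_right e7 (Real.rpow_nonneg hd.le _)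
      refine (sum_le_sum e5).trans ?_
      apply sum_le_sum_of_subset_of_nonneg (filter_subset _ _)
      intro m _ _
      exact mul_nonneg (Real.rpow_nonneg (by linarith) _) (tk_nonneg κ m)
    rw [← mul_sum] at e4
    have e8 := hC X h2
    rw [h2κ] at e8
    have e9 : T ^ (1 - κ) * x ^ (c - 1) = x ^ (-δ) := by
      rw [hT, ← Real.rpow_mul hx0.le, ← Real.rpow_add hx0]
      congr 1
      rw [hδ]
      linear_combination -hκα
    calc _ ≤ T ^ (1 - κ) * (C * X * x ^ (c - 1)) :=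
          e2.trans (e4.trans (mul_le_mul_of_nonneg_left e8 (Real.rpow_nonneg (by linarith) _)))
      _ = C * X * (T ^ (1 - κ) * x ^ (c - 1)) := by ring
      _ = _ := by rw [e9]
  have hfl : ((⌊Real.exp (x / 2)⌋₊ : ℕ) : ℝ) ≤ Real.exp (x / 2) :=
    Nat.floor_le (Real.exp_pos _).le
  have hρx : 0 < x ^ (δ / 2) := Real.rpow_pos_of_pos hx0 _
  have hneg : x ^ (-(δ / 2)) = (x ^ (δ / 2))⁻¹ := Real.rpow_neg hx0.le _
  have hfl2 : Real.exp (x / 2) ≤ x ^ (-(δ / 2)) * X / 2 := by
    have e3 : Real.exp x = Real.exp (x / 2) * Real.exp (x / 2) := by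
      rw [← Real.exp_add]; ring_nf
    have e4 : 2 * x ^ (δ / 2) ≤ x ^ (δ / 2) * x ^ (δ / 2) := by
      apply mul_le_mul_of_nonneg_right _ hρx.le
      linarith
    have e5 : x ^ (δ / 2) * x ^ (δ / 2) ≤ Real.exp (x / 2) := by
      rw [← Real.rpow_add hx0, Real.rpow_def_of_pos hx0]
      apply Real.exp_le_exp.mpr
      rw [Real.rpow_one] at h5
      calc Real.log x * (δ / 2 + δ / 2) = Real.log x * δ := by ring
        _ ≤ (1 / (2 * δ) * x) * δ := mul_le_mul_of_nonneg_right h5 hδ0.le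
        _ = x / 2 := by field_simp
    have e6 : Real.exp (x / 2) * (2 * x ^ (δ / 2)) ≤ X := by
      rw [hXx, e3]
      exact mul_le_mul_of_nonneg_left (e4.trans e5) (Real.exp_pos _).le
    rw [hneg, ← div_eq_inv_mul, div_div, le_div_iff₀ (by positivity)]
    linarith
  have hsm : C * X * x ^ (-δ) ≤ x ^ (-(δ / 2)) * X / 2 := by
    have e1 : x ^ (-δ) = x ^ (-(δ / 2)) * x ^ (-(δ / 2)) := by
      rw [← Real.rpow_add hx0]; ring_nf
    have e3 : C * x ^ (-(δ / 2)) ≤ 1 / 2 := by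
      rw [hneg, ← div_eq_mul_inv, div_le_iff₀ hρx]
      linarith
    have e4 : 0 < x ^ (-(δ / 2)) := Real.rpow_pos_of_pos hx0 _
    calc C * X * x ^ (-δ) = (C * x ^ (-(δ / 2))) * (x ^ (-(δ / 2)) * X) := by rw [e1]; ring
      _ ≤ 1 / 2 * (x ^ (-(δ / 2)) * X) := mul_le_mul_of_nonneg_right e3 (by positivity)
      _ = _ := by ring
  have hcard' : ((#{n ∈ Finset.Icc 1 X | ¬ UpOK (α + ε) n} : ℕ) : ℝ)
      ≤ ((⌊Real.exp (x / 2)⌋₊ : ℕ) : ℝ) + ((((Ioc 0 X).filter fun m : ℕ =>
        T < (m.divisors.card : ℝ)).biUnion (fun m => Ioc m (m + m.divisors.card))).card : ℝ) := by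
    rw [Nat.card_Icc] at hcard
    have : (#{n ∈ Finset.Icc 1 X | ¬ UpOK (α + ε) n} : ℕ) ≤ ⌊Real.exp (x / 2)⌋₊
      + (((Ioc 0 X).filter fun m : ℕ => T < (m.divisors.card : ℝ)).biUnion
        (fun m => Ioc m (m + m.divisors.card))).card := by omega
    exact_mod_cast this
  linarith

end Pool.Agent.Helper46_MNO
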