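import Mathlib
import Pool.Agent.Helper45_DivisorSieve.Count

set_option autoImplicit false

/-!
Truncated divisor weights supported on a set of primes larger than the range of the shifts:
first and second moments over an interval.
-/

namespace Pool.Agent.Helper46_MNO

open Finset Real

/-- The members of `P` dividing `m`. -/
def Fp (P : Finset ℕ) (m : ℕ) : Finset ℕ := P.filter (fun p => p ∣ m)

/-- The subsets of `P` with at most `R` elements. -/
def Dset (P : Finset ℕ) (R : ℕ) : Finset (Finset ℕ) := P.powerset.filter (fun D => D.card ≤ R)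

/-- The truncated weight. -/
noncomputable def Wt (P : Finset ℕ) (R : ℕ) (t : ℝ) (m : ℕ) : ℝ :=
  ∑ D ∈ Dset P R, if (∏ p ∈ D, p) ∣ m then t ^ D.card else 0

/-- The main term. -/
noncomputable def SS (P : Finset ℕ) (R : ℕ) (t : ℝ) : ℝ :=
  ∑ D ∈ Dset P R, t ^ D.card / ((∏ p ∈ D, p : ℕ) : ℝ)

/-- The error term. -/
noncomputable def EE (P : Finset ℕ) (R : ℕ) (t : ℝ) : ℝ := ∑ D ∈ Dset P R, t ^ D.card

lemma mem_Dset {P : Finset ℕ} {R : ℕ} {D : Finset ℕ} :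
    D ∈ Dset P R ↔ D ⊆ P ∧ D.card ≤ R := by
  simp [Dset]

lemma prod_pos_of {P : Finset ℕ} (hP : ∀ p ∈ P, p.Prime) {D : Finset ℕ} (hD : D ⊆ P) :
    0 < ∏ p ∈ D, p := Finset.prod_pos fun p hp => (hP p (hD hp)).pos

lemma prod_dvd_iff {P : Finset ℕ} (hP : ∀ p ∈ P, p.Prime) {D : Finset ℕ} (hD : D ⊆ P) (m : ℕ) :
    (∏ p ∈ D, p) ∣ m ↔ D ⊆ Fp P m := by
  constructor
  · intro h p hp
    exact mem_filter.mpr ⟨hD hp, (dvd_prod_of_mem (fun p => p) hp).trans h⟩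
  · intro h
    exact Finset.prod_primes_dvd m (fun p hp => (hP p (hD hp)).prime)
      (fun p hp => (mem_filter.mp (h hp)).2)

lemma Wt_nonneg (P : Finset ℕ) (R : ℕ) {t : ℝ} (ht : 0 ≤ t) (m : ℕ) : 0 ≤ Wt P R t m :=
  sum_nonneg fun D _ => by split_ifs <;> positivity

lemma Wt_le {P : Finset ℕ} (hP : ∀ p ∈ P, p.Prime) (R : ℕ) {t : ℝ} (ht : 0 ≤ t) (m : ℕ) :
    Wt P R t m ≤ (t + 1) ^ (Fp P m).card := by
  have h1 : Wt P R t m ≤ ∑ D ∈ (Fp P m).powerset, t ^ D.card := by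
    unfold Wt
    rw [← sum_filter]
    apply sum_le_sum_of_subset_of_nonneg
    · intro D hD
      rw [mem_filter, mem_Dset] at hD
      rw [mem_powerset]
      exact (prod_dvd_iff hP hD.1.1 m).mp hD.2
    · intro D _ _
      positivity
  have h2 := Finset.sum_pow_mul_eq_add_pow t 1 (Fp P m)
  simp only [one_pow, mul_one] at h2
  linarith

lemma dvd_add_iff_modEq {d : ℕ} (a k : ℕ) (hd : 0 < d) :
    d ∣ k + a ↔ k ≡ (d - 1) * a [MOD d] := by
  have h1 : (d - 1) * a + a = d * a := by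
    obtain ⟨e, rfl⟩ : ∃ e, d = e + 1 := ⟨d - 1, by omega⟩
    simp only [Nat.add_sub_cancel]; ring
  constructor
  · intro h
    apply Nat.ModEq.add_right_cancel' a
    rw [h1]
    exact ((Nat.modEq_zero_iff_dvd).mpr h).trans ((Nat.modEq_zero_iff_dvd).mpr (Dvd.intro _ rfl)).symm
  · intro h
    have h2 := Nat.ModEq.add_right a h
    rw [h1] at h2
    exact (Nat.modEq_zero_iff_dvd).mp (h2.trans ((Nat.modEq_zero_iff_dvd).mpr (Dvd.intro _ rfl)))

lemma count_dvd (N d a : ℕ) (hd : 0 < d) :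
    |((#{k ∈ range N | d ∣ k + a} : ℕ) : ℝ) - (N : ℝ) / d| ≤ 1 := by
  have h := Pool.Agent.Helper45_DivisorSieve.count_modEq_bound N d ((d - 1) * a) hd
  have h2 : {k ∈ range N | d ∣ k + a} = {k ∈ range N | k ≡ (d - 1) * a [MOD d]} := by
    apply filter_congr
    intro k _
    exact dvd_add_iff_modEq a k hd
  rw [h2]
  exact h

lemma count_pair {P : Finset ℕ} (hP : ∀ p ∈ P, p.Prime) {J : ℕ} (hJ : ∀ p ∈ P, J ≤ p)
    {D D' : Finset ℕ} (hD : D ⊆ P) (hD' : D' ⊆ P) {a b : ℕ} (ha : a < J) (hb : b < J)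
    (hab : a ≠ b) (c N : ℕ) :
    ((#{k ∈ range N | (∏ p ∈ D, p) ∣ k + (c + a) ∧ (∏ p ∈ D', p) ∣ k + (c + b)} : ℕ) : ℝ)
      ≤ (N : ℝ) / ((∏ p ∈ D, p : ℕ) : ℝ) / ((∏ p ∈ D', p : ℕ) : ℝ) + 1 := by
  have hd := prod_pos_of hP hD
  have hd' := prod_pos_of hP hD'
  by_cases hdis : Disjoint D D'
  · have hcop : Nat.Coprime (∏ p ∈ D, p) (∏ p ∈ D', p) := by
      apply Nat.Coprime.prod_left
      intro p hp
      apply Nat.Coprime.prod_right
      intro q hq
      rw [Nat.coprime_primes (hP p (hD hp)) (hP q (hD' hq))]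
      rintro rfl
      exact (Finset.disjoint_left.mp hdis hp hq)
    set d := ∏ p ∈ D, p with hdd
    set d' := ∏ p ∈ D', p with hdd'
    have h2 : {k ∈ range N | d ∣ k + (c + a) ∧ d' ∣ k + (c + b)}
        = {k ∈ range N | k ≡ (Nat.chineseRemainder hcop ((d - 1) * (c + a))
            ((d' - 1) * (c + b)) : ℕ) [MOD (d * d')]} := by
      apply filter_congr
      intro k _
      rw [dvd_add_iff_modEq (c + a) k hd, dvd_add_iff_modEq (c + b) k hd',
        ← Nat.modEq_and_modEq_iff_modEq_mul hcop]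
      have h3 := (Nat.chineseRemainder hcop ((d - 1) * (c + a)) ((d' - 1) * (c + b))).2
      constructor
      · rintro ⟨h4, h5⟩
        exact ⟨h4.trans h3.1.symm, h5.trans h3.2.symm⟩
      · rintro ⟨h4, h5⟩
        exact ⟨h4.trans h3.1, h5.trans h3.2⟩
    rw [h2]
    have h := Pool.Agent.Helper45_DivisorSieve.count_modEq_bound N (d * d')
      (Nat.chineseRemainder hcop ((d - 1) * (c + a)) ((d' - 1) * (c + b)) : ℕ)
      (Nat.mul_pos hd hd')
    have h4 := (abs_le.mp h).2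
    push_cast at h4 ⊢
    rw [div_div]
    linarith
  · rw [Finset.not_disjoint_iff] at hdis
    obtain ⟨p, hp, hp'⟩ := hdis
    have h0 : {k ∈ range N | (∏ p ∈ D, p) ∣ k + (c + a) ∧ (∏ p ∈ D', p) ∣ k + (c + b)} = ∅ := by
      rw [filter_eq_empty_iff]
      rintro k _ ⟨h1, h2⟩
      have h3 : p ∣ k + (c + a) := (dvd_prod_of_mem (fun p => p) hp).trans h1
      have h4 : p ∣ k + (c + b) := (dvd_prod_of_mem (fun p => p) hp').trans h2
      have hpJ := hJ p (hD hp)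
      rcases lt_or_gt_of_ne hab with h | h
      · have h5 : p ∣ (k + (c + b)) - (k + (c + a)) := Nat.dvd_sub h4 h3
        have h6 := Nat.le_of_dvd (by omega) h5
        omega
      · have h5 : p ∣ (k + (c + a)) - (k + (c + b)) := Nat.dvd_sub h3 h4
        have h6 := Nat.le_of_dvd (by omega) h5
        omega
    rw [h0]
    simp only [card_empty, Nat.cast_zero]
    positivity

lemma sum_ite_const (N : ℕ) (q : ℕ → Prop) [DecidablePred q] (x : ℝ) :
    ∑ k ∈ range N, (if q k then x else 0) = ((#{k ∈ range N | q k} : ℕ) : ℝ) * x := by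
  rw [← sum_filter, sum_const, nsmul_eq_mul]

lemma first_bounds {P : Finset ℕ} (hP : ∀ p ∈ P, p.Prime) (R : ℕ) {t : ℝ} (ht : 0 ≤ t)
    (a N : ℕ) :
    |∑ k ∈ range N, Wt P R t (k + a) - N * SS P R t| ≤ EE P R t := by
  have h1 : ∑ k ∈ range N, Wt P R t (k + a)
      = ∑ D ∈ Dset P R, ((#{k ∈ range N | (∏ p ∈ D, p) ∣ k + a} : ℕ) : ℝ) * t ^ D.card := by
    unfold Wt
    rw [sum_comm]
    exact sum_congr rfl fun D _ => sum_ite_const N _ _
  have h2 : (N : ℝ) * SS P R t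
      = ∑ D ∈ Dset P R, ((N : ℝ) / ((∏ p ∈ D, p : ℕ) : ℝ)) * t ^ D.card := by
    unfold SS
    rw [mul_sum]
    exact sum_congr rfl fun D _ => by ring
  rw [h1, h2, ← sum_sub_distrib]
  refine (abs_sum_le_sum_abs _ _).trans ?_
  unfold EE
  apply sum_le_sum
  intro D hD
  rw [mem_Dset] at hD
  rw [← sub_mul, abs_mul, abs_of_nonneg (by positivity : (0:ℝ) ≤ t ^ D.card)]
  have h3 := count_dvd N (∏ p ∈ D, p) a (prod_pos_of hP hD.1)
  have h4 : (0:ℝ) ≤ t ^ D.card := by positivity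
  nlinarith

lemma pair_bound {P : Finset ℕ} (hP : ∀ p ∈ P, p.Prime) {J : ℕ} (hJ : ∀ p ∈ P, J ≤ p)
    (R : ℕ) {t : ℝ} (ht : 0 ≤ t) {a b : ℕ} (ha : a < J) (hb : b < J) (hab : a ≠ b) (c N : ℕ) :
    ∑ k ∈ range N, Wt P R t (k + (c + a)) * Wt P R t (k + (c + b))
      ≤ N * SS P R t ^ 2 + EE P R t ^ 2 := by
  have h1 : ∑ k ∈ range N, Wt P R t (k + (c + a)) * Wt P R t (k + (c + b))
      = ∑ D ∈ Dset P R, ∑ D' ∈ Dset P R,
        ((#{k ∈ range N | (∏ p ∈ D, p) ∣ k + (c + a) ∧ (∏ p ∈ D', p) ∣ k + (c + b)} : ℕ) : ℝ)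
          * (t ^ D.card * t ^ D'.card) := by
    unfold Wt
    simp_rw [sum_mul_sum]
    rw [sum_comm]
    refine sum_congr rfl fun D _ => ?_
    rw [sum_comm]
    refine sum_congr rfl fun D' _ => ?_
    rw [← sum_ite_const N]
    refine sum_congr rfl fun k _ => ?_
    by_cases h3 : (∏ p ∈ D, p) ∣ k + (c + a) <;> by_cases h4 : (∏ p ∈ D', p) ∣ k + (c + b) <;>
      simp [h3, h4]
  have h2 : N * SS P R t ^ 2 + EE P R t ^ 2
      = ∑ D ∈ Dset P R, ∑ D' ∈ Dset P R,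
        ((N : ℝ) / ((∏ p ∈ D, p : ℕ) : ℝ) / ((∏ p ∈ D', p : ℕ) : ℝ) + 1)
          * (t ^ D.card * t ^ D'.card) := by
    have e1 : SS P R t ^ 2 = ∑ D ∈ Dset P R, ∑ D' ∈ Dset P R,
        (t ^ D.card / ((∏ p ∈ D, p : ℕ) : ℝ)) * (t ^ D'.card / ((∏ p ∈ D', p : ℕ) : ℝ)) := by
      unfold SS; rw [sq, sum_mul_sum]
    have e2 : EE P R t ^ 2 = ∑ D ∈ Dset P R, ∑ D' ∈ Dset P R, (t ^ D.card * t ^ D'.card) := by
      unfold EE; rw [sq, sum_mul_sum]
    rw [e1, e2, mul_sum, ← sum_add_distrib]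
    refine sum_congr rfl fun D _ => ?_
    rw [mul_sum, ← sum_add_distrib]
    refine sum_congr rfl fun D' _ => ?_
    ring
  rw [h1, h2]
  apply sum_le_sum
  intro D hD
  apply sum_le_sum
  intro D' hD'
  rw [mem_Dset] at hD hD'
  have h3 := count_pair hP hJ hD.1 hD'.1 ha hb hab c N
  exact mul_le_mul_of_nonneg_right h3 (by positivity)

end Pool.Agent.Helper46_MNO
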